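import Pool.Agent.CrW.Def
import Pool.Agent.SmW.Step

/-!
# The chain for the random set

Same scheme as Pool/Agent/SmW/Step.lean and Chain.lean (read them; prob_det, prob_fubini, count of
SmW are used here too).

(0) Base.  X 0 = Ico lo0 (β+1).  For m with lo0 + L 0 ≤ m ≤ β the window (m - L 0, m] is contained
in X 0; the probability that no x of the window has e (cl 0 + Q x) = 1 is at most exp(-q L 0)
(prob_det with X := image of the window under x ↦ cl 0 + Q x, J := {1}, κ := 1).  Union bound over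
m ≤ β.
(j -> j+1) X (j+1) = Ico (lo j) (lo j + M).  Let B = iterR j be Dense with gap L j on
[lo0 + L 0 + j Z, β], and m in [lo0 + L 0 + (j+1) Z, β].  SmW.count with y := lo j gives at least
(M / (2 L j)) L (j+1) values i < M such that x = lo j + i satisfies: there is b in B with
b + x ≤ m < b + x + L (j+1).  If one of these x has e (cl (j+1) + Q x) = 1 then b + x lies in
iterR (j+1) and in the window.  The values e at these x are independent of B (which depends only on
e (cl i + Q x), x in X i, i ≤ j; the indices cl i + Q x are different for different (i, x) because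
cl i < Q and the X i are disjoint), so by prob_fubini and prob_det (X := image of the good x,
J := {1}, κ := 1) the probability of the failure at m is at most
exp(-q (M / (2 L j)) L (j+1)).  Union bound over m ≤ β.
-/

namespace Pool.Agent.CrW

open MeasureTheory ProbabilityTheory Pool.Agent.SmW

private theorem crw_inj {Q a b x y : ℕ} (ha : a < Q) (hb : b < Q) (h : a + Q * x = b + Q * y) :
    x = y := by
  have hQ : 0 < Q := lt_of_le_of_lt (Nat.zero_le _) ha
  have h1 : (a + Q * x) / Q = x := by
    rw [Nat.add_mul_div_left _ _ hQ, Nat.div_eq_of_lt ha, zero_add]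
  have h2 : (b + Q * y) / Q = y := by
    rw [Nat.add_mul_div_left _ _ hQ, Nat.div_eq_of_lt hb, zero_add]
  rw [← h1, ← h2, h]

private theorem crw_congr (Q : ℕ) (cl : ℕ → ℕ) (X : ℕ → Finset ℕ) (v v' : ℕ → ℕ) (j : ℕ)
    (hv : ∀ i ≤ j, ∀ x ∈ X i, v (cl i + Q * x) = v' (cl i + Q * x)) :
    iterR Q cl X v j = iterR Q cl X v' j := by
  induction j with
  | zero =>
    ext b
    constructor
    · rintro ⟨h1, h2⟩
      exact ⟨h1, by rw [← hv 0 le_rfl b h1]; exact h2⟩
    · rintro ⟨h1, h2⟩
      exact ⟨h1, by rw [hv 0 le_rfl b h1]; exact h2⟩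
  | succ j ih =>
    have ih' := ih (fun i hi => hv i (by omega))
    ext b
    constructor
    · rintro ⟨a, ha, x, hx, h2, h3⟩
      exact ⟨a, by rw [← ih']; exact ha, x, hx, by rw [← hv (j + 1) le_rfl x hx]; exact h2, h3⟩
    · rintro ⟨a, ha, x, hx, h2, h3⟩
      exact ⟨a, by rw [ih']; exact ha, x, hx, by rw [hv (j + 1) le_rfl x hx]; exact h2, h3⟩

/-- union bound for the failure of Dense -/
private theorem crw_union {Ω : Type*} [MeasurableSpace Ω] (P : Measure Ω) [IsProbabilityMeasure P]
    (B : Ω → Set ℕ) (D : Ω → Prop) (L α β : ℕ) (ε : ℝ) (hε : 0 ≤ ε)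
    (h : ∀ m, α ≤ m → m ≤ β → P.real {ω | D ω ∧ ¬ ∃ b ∈ B ω, b ≤ m ∧ m < b + L} ≤ ε) :
    P.real {ω | D ω ∧ ¬ Dense (B ω) L α β} ≤ ((β : ℝ) + 1) * ε := by
  set ms : Finset ℕ := (Finset.range (β + 1)).filter fun m => α ≤ m with hms
  have hsub : {ω | D ω ∧ ¬ Dense (B ω) L α β} ⊆
      ⋃ m ∈ ms, {ω | D ω ∧ ¬ ∃ b ∈ B ω, b ≤ m ∧ m < b + L} := by
    intro ω hω
    obtain ⟨hD, hω⟩ := hω
    unfold SmW.Dense at hω
    push Not at hω
    obtain ⟨m, h2, h3, h4⟩ := hω
    rw [Set.mem_iUnion₂]
    refine ⟨m, ?_, hD, ?_⟩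
    · rw [hms, Finset.mem_filter, Finset.mem_range]
      exact ⟨by omega, h2⟩
    · rintro ⟨b, hb, h5, h6⟩
      have h7 := h4 b hb h5
      omega
  have hcard : (ms.card : ℝ) ≤ (β : ℝ) + 1 := by
    have h1 : ms.card ≤ β + 1 := by
      rw [hms]
      refine (Finset.card_filter_le _ _).trans ?_
      rw [Finset.card_range]
    exact_mod_cast h1
  refine (measureReal_mono hsub (measure_ne_top _ _)).trans ?_
  refine (measureReal_biUnion_finset_le _ _).trans ?_
  refine (Finset.sum_le_sum (g := fun _ => ε) ?_).trans ?_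
  · intro m hm
    rw [hms, Finset.mem_filter, Finset.mem_range] at hm
    exact h m hm.2 (by omega)
  · rw [Finset.sum_const, nsmul_eq_mul]
    exact mul_le_mul_of_nonneg_right hcard hε

/-- one target: the set of indices contains T -/
private theorem crw_det {Ω : Type*} [MeasurableSpace Ω] (P : Measure Ω) [IsProbabilityMeasure P]
    (e : ℕ → Ω → ℕ) (hm : ∀ n, Measurable (e n)) (hi : iIndepFun e P) (T : Finset ℕ) (q : ℝ)
    (hq : 0 ≤ q) (r : ℕ) (hr : r ≤ T.card) (hP : ∀ x ∈ T, q ≤ P.real {ω | e x ω = 1}) :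
    P.real {ω | ∀ x ∈ T, e x ω ≠ 1} ≤ Real.exp (-(q * (r : ℝ))) := by
  have h1 := prob_det P e hm hi T (fun _ => {1}) q 1 hq (fun x _ => by simp) (fun x hx j hj => by
    rw [Finset.mem_singleton] at hj
    subst hj
    exact hP x hx)
  have h2 : {ω | ∀ x ∈ T, e x ω ∉ (fun _ : ℕ => ({1} : Finset ℕ)) x} = {ω | ∀ x ∈ T, e x ω ≠ 1} := by
    ext ω
    simp
  rw [h2] at h1
  refine h1.trans (Real.exp_le_exp.2 ?_)
  have h3 : (r : ℝ) ≤ (T.card : ℝ) := by exact_mod_cast hr
  have h4 : q * (r : ℝ) ≤ q * (T.card : ℝ) := mul_le_mul_of_nonneg_left h3 hq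
  push_cast
  linarith

theorem chainR {Ω : Type*} [MeasurableSpace Ω] (P : Measure Ω) [IsProbabilityMeasure P]
    (e : ℕ → Ω → ℕ) (hm : ∀ n, Measurable (e n)) (hi : iIndepFun e P)
    (Q : ℕ) (cl : ℕ → ℕ) (lo0 M Z t β : ℕ) (lo L : ℕ → ℕ) (X : ℕ → Finset ℕ) (q : ℝ)
    (hq : 0 ≤ q) (hcl : ∀ j ≤ t, cl j < Q)
    (hX0 : X 0 = Finset.Ico lo0 (β + 1))
    (hX : ∀ j < t, X (j + 1) = Finset.Ico (lo j) (lo j + M))
    (hdis : ∀ i ≤ t, ∀ j ≤ t, i ≠ j → Disjoint (X i) (X j))
    (hL1 : ∀ j ≤ t, 1 ≤ L j) (hL : ∀ j < t, L (j + 1) ≤ L j)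
    (hP : ∀ j ≤ t, ∀ x ∈ X j, q ≤ P.real {ω | e (cl j + Q * x) ω = 1})
    (hZ : ∀ j < t, lo j + M ≤ Z) :
    P.real {ω | ¬ Dense (iterR Q cl X (fun n => e n ω) t) (L t) (lo0 + L 0 + t * Z) β} ≤
      ((β : ℝ) + 1) * Real.exp (-(q * (L 0 : ℝ))) +
      ∑ j ∈ Finset.range t, ((β : ℝ) + 1) *
        Real.exp (-(q * (((M / (2 * L j)) * L (j + 1) : ℕ) : ℝ))) := by
  classical
  induction t with
  | zero =>
    have h1 := crw_union P (fun ω => iterR Q cl X (fun n => e n ω) 0) (fun _ => True) (L 0)
      (lo0 + L 0 + 0 * Z) β (Real.exp (-(q * (L 0 : ℝ)))) (Real.exp_pos _).le ?_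
    · simp only [true_and] at h1
      simpa using h1
    · intro m hm1 hm2
      set W : Finset ℕ := Finset.Ico (m + 1 - L 0) (m + 1) with hW
      have hWX : ∀ x ∈ W, x ∈ X 0 := by
        intro x hx
        rw [hW, Finset.mem_Ico] at hx
        rw [hX0, Finset.mem_Ico]
        constructor <;> omega
      have hinj : ∀ x ∈ W, ∀ y ∈ W, cl 0 + Q * x = cl 0 + Q * y → x = y := fun x _ y _ h =>
        crw_inj (hcl 0 le_rfl) (hcl 0 le_rfl) h
      have h2 := crw_det P e hm hi (W.image fun x => cl 0 + Q * x) q hq (L 0) ?_ ?_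
      · refine (measureReal_mono ?_).trans h2
        rintro ω ⟨-, h3⟩ y hy hy1
        obtain ⟨x, hx, rfl⟩ := Finset.mem_image.1 hy
        apply h3
        refine ⟨x, ⟨hWX x hx, hy1⟩, ?_⟩
        rw [hW, Finset.mem_Ico] at hx
        constructor <;> omega
      · rw [Finset.card_image_of_injOn (fun x hx y hy h => hinj x hx y hy h), hW, Nat.card_Ico]
        omega
      · intro y hy
        obtain ⟨x, hx, rfl⟩ := Finset.mem_image.1 hy
        exact hP 0 le_rfl x (hWX x hx)
  | succ t ih =>
    have ih' := ih (fun j hj => hcl j (by omega)) (fun j hj => hX j (by omega))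
      (fun i hi j hj => hdis i (by omega) j (by omega)) (fun j hj => hL1 j (by omega))
      (fun j hj => hL j (by omega)) (fun j hj => hP j (by omega)) (fun j hj => hZ j (by omega))
    set Y : Finset ℕ := (Finset.range (t + 1)).biUnion fun i => (X i).image fun x => cl i + Q * x
      with hY
    set X' : Finset ℕ := (X (t + 1)).image fun x => cl (t + 1) + Q * x with hX'
    have hd : Disjoint Y X' := by
      rw [Finset.disjoint_left]
      intro y hy hy'
      rw [hY, Finset.mem_biUnion] at hy
      obtain ⟨i, hi', hy⟩ := hy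
      obtain ⟨x, hx, h3⟩ := Finset.mem_image.1 hy
      obtain ⟨x', hx', h4⟩ := Finset.mem_image.1 hy'
      have hit := Finset.mem_range.1 hi'
      have h5 : x = x' := crw_inj (hcl i (by omega)) (hcl (t + 1) le_rfl) (h3.trans h4.symm)
      subst h5
      exact Finset.disjoint_left.1 (hdis i (by omega) (t + 1) le_rfl (by omega)) hx hx'
    have hFc : ∀ v v' : ℕ → ℕ, (∀ n ∈ Y, v n = v' n) → iterR Q cl X v t = iterR Q cl X v' t := by
      intro v v' hv
      apply crw_congr
      intro i hit x hx
      apply hv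
      rw [hY, Finset.mem_biUnion]
      exact ⟨i, Finset.mem_range.2 (by omega), Finset.mem_image_of_mem _ hx⟩
    have hFc' : ∀ v v' : ℕ → ℕ, (∀ n ∈ Y ∪ X', v n = v' n) →
        iterR Q cl X v (t + 1) = iterR Q cl X v' (t + 1) := by
      intro v v' hv
      apply crw_congr
      intro i hit x hx
      apply hv
      rcases Nat.lt_or_ge i (t + 1) with h | h
      · apply Finset.mem_union_left
        rw [hY, Finset.mem_biUnion]
        exact ⟨i, Finset.mem_range.2 h, Finset.mem_image_of_mem _ hx⟩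
      · have hii : i = t + 1 := le_antisymm hit h
        subst hii
        apply Finset.mem_union_right
        exact Finset.mem_image_of_mem _ hx
    have hstep : ∀ m, lo0 + L 0 + (t + 1) * Z ≤ m → m ≤ β →
        P.real {ω | Dense (iterR Q cl X (fun n => e n ω) t) (L t) (lo0 + L 0 + t * Z) β ∧
          ¬ ∃ b ∈ iterR Q cl X (fun n => e n ω) (t + 1), b ≤ m ∧ m < b + L (t + 1)} ≤
        Real.exp (-(q * (((M / (2 * L t)) * L (t + 1) : ℕ) : ℝ))) := by
      intro m hm1 hm2
      refine prob_fubini P e hm hi Y X' hd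
        (fun v => Dense (iterR Q cl X v t) (L t) (lo0 + L 0 + t * Z) β ∧
          ¬ ∃ b ∈ iterR Q cl X v (t + 1), b ≤ m ∧ m < b + L (t + 1)) ?_ _ ?_
      · intro v v' hv
        show (Dense (iterR Q cl X v t) (L t) (lo0 + L 0 + t * Z) β ∧
            ¬ ∃ b ∈ iterR Q cl X v (t + 1), b ≤ m ∧ m < b + L (t + 1)) ↔
          (Dense (iterR Q cl X v' t) (L t) (lo0 + L 0 + t * Z) β ∧
            ¬ ∃ b ∈ iterR Q cl X v' (t + 1), b ≤ m ∧ m < b + L (t + 1))
        rw [hFc v v' (fun n hn => hv n (Finset.mem_union_left _ hn)), hFc' v v' hv]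
      · intro u
        have hFu : ∀ v : ℕ → ℕ, iterR Q cl X (mix Y u v) t = iterR Q cl X u t := fun v =>
          hFc _ _ (fun y hy => by simp [mix, hy])
        by_cases hD : Dense (iterR Q cl X u t) (L t) (lo0 + L 0 + t * Z) β
        · set I : Finset ℕ := (Finset.range M).filter fun i =>
            ∃ b ∈ iterR Q cl X u t, b + (lo t + i) ≤ m ∧ m < b + (lo t + i) + L (t + 1) with hI
          have hIc : (M / (2 * L t)) * L (t + 1) ≤ I.card := by
            have h1 := count (iterR Q cl X u t) (L t) (L (t + 1)) (lo0 + L 0 + t * Z) β M m (lo t)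
              hD (hL1 (t + 1) le_rfl) (hL t (by omega)) hm2 (by
                have h1 := hZ t (by omega)
                have h2 : lo0 + L 0 + (t + 1) * Z = lo0 + L 0 + t * Z + Z := by ring
                omega)
            convert h1
          have hIX : ∀ i ∈ I, lo t + i ∈ X (t + 1) := by
            intro i hiI
            rw [hI, Finset.mem_filter, Finset.mem_range] at hiI
            rw [hX t (by omega), Finset.mem_Ico]
            constructor <;> omega
          have hinj : ∀ x ∈ I, ∀ y ∈ I, cl (t + 1) + Q * (lo t + x) = cl (t + 1) + Q * (lo t + y) →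
              x = y := by
            intro x _ y _ h
            have := crw_inj (hcl (t + 1) le_rfl) (hcl (t + 1) le_rfl) h
            omega
          have h2 := crw_det P e hm hi (I.image fun i => cl (t + 1) + Q * (lo t + i)) q hq
            ((M / (2 * L t)) * L (t + 1)) ?_ ?_
          · refine (measureReal_mono ?_).trans h2
            rintro ω ⟨-, h3⟩ y hy hy1
            obtain ⟨i, hiI, rfl⟩ := Finset.mem_image.1 hy
            apply h3
            have hnot : cl (t + 1) + Q * (lo t + i) ∉ Y := fun hc =>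
              Finset.disjoint_left.1 hd hc (Finset.mem_image_of_mem _ (hIX i hiI))
            have hiX := hIX i hiI
            rw [hI, Finset.mem_filter] at hiI
            obtain ⟨-, b, hb, hb1, hb2⟩ := hiI
            refine ⟨b + (lo t + i), ⟨b, ?_, lo t + i, hiX, ?_, rfl⟩, hb1, hb2⟩
            · rw [hFu]
              exact hb
            · simp only [mix, if_neg hnot]
              exact hy1
          · rw [Finset.card_image_of_injOn (fun x hx y hy h => hinj x hx y hy h)]
            exact hIc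
          · intro y hy
            obtain ⟨i, hiI, rfl⟩ := Finset.mem_image.1 hy
            exact hP (t + 1) le_rfl _ (hIX i hiI)
        · have hempty : {ω | Dense (iterR Q cl X (mix Y u (fun n => e n ω)) t) (L t)
              (lo0 + L 0 + t * Z) β ∧
              ¬ ∃ b ∈ iterR Q cl X (mix Y u (fun n => e n ω)) (t + 1),
                b ≤ m ∧ m < b + L (t + 1)} = ∅ := by
            ext ω
            simp only [Set.mem_ofPred_eq, Set.mem_empty_iff_false, iff_false, not_and]
            intro h1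
            rw [hFu] at h1
            exact absurd h1 hD
          rw [hempty, measureReal_empty]
          exact (Real.exp_pos _).le
    have hun := crw_union P (fun ω => iterR Q cl X (fun n => e n ω) (t + 1))
      (fun ω => Dense (iterR Q cl X (fun n => e n ω) t) (L t) (lo0 + L 0 + t * Z) β) (L (t + 1))
      (lo0 + L 0 + (t + 1) * Z) β _ (Real.exp_pos _).le hstep
    have hsub : {ω | ¬ Dense (iterR Q cl X (fun n => e n ω) (t + 1)) (L (t + 1))
          (lo0 + L 0 + (t + 1) * Z) β} ⊆
        {ω | ¬ Dense (iterR Q cl X (fun n => e n ω) t) (L t) (lo0 + L 0 + t * Z) β} ∪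
          {ω | Dense (iterR Q cl X (fun n => e n ω) t) (L t) (lo0 + L 0 + t * Z) β ∧
            ¬ Dense (iterR Q cl X (fun n => e n ω) (t + 1)) (L (t + 1))
              (lo0 + L 0 + (t + 1) * Z) β} := by
      intro ω hω
      rw [Set.mem_union]
      by_cases h1 : Dense (iterR Q cl X (fun n => e n ω) t) (L t) (lo0 + L 0 + t * Z) β
      · right
        exact ⟨h1, hω⟩
      · left
        exact h1
    rw [Finset.sum_range_succ, ← add_assoc]
    exact (measureReal_mono hsub (measure_ne_top _ _)).trans ((measureReal_union_le _ _).trans (add_le_add ih' hun))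

end Pool.Agent.CrW
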