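import Mathlib

/-!
# Choice of the parameters for the random model

η := 1/(2k(k+1)); M := T / (8 (k+1)^2), lo0 := T / 8, Z := (k+1) M (natural divisions);
L j := ⌈T^(1 - 1/k + η - j (1/k - η))⌉₊.  For T large:
* M ≥ 1, (k+1) M ≤ T/8 = lo0 (as (k+1) * (T / (8 (k+1)^2)) ≤ T / (8 (k+1)) ≤ T / 8).
* L 0 ≤ T/16, k Z ≤ k (k+1) M ≤ T/8, so lo0 + L 0 + k Z ≤ T/2.
* L j ≥ 1, decreasing; the exponent for j = k is -1/k + (k+1) η = -1/(2k) < 0, so L k = 1.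
* n ≤ Q (T+1) and 1/k - 1 < 0 give (Q(T+1))^(1/k-1) ≤ n^(1/k-1) for n ≥ 1.
* (Q (T+1))^(1/k-1) ≥ (2 Q T)^(1/k-1), L 0 ≥ T^(1-1/k+η): product ≥ (2Q)^(1/k-1) T^η.
* M ≥ T/(16 (k+1)^2), M ≥ 2 L 0 ≥ 2 L j, so M/(2 L j) ≥ M/(4 L j) (floor y ≥ y/2 for y ≥ 1);
  L (j+1)/L j ≥ T^(-(1/k-η))/2 (compare Pool/Agent/SmW/Param.lean); so
  (Q(T+1))^(1/k-1) (M/(2 L j)) L (j+1) ≥ (2Q)^(1/k-1) T^(1/k-1) T/(64 (k+1)^2) T^(-1/k+η)/2.
-/

namespace Pool.Agent.CrW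

private theorem par_ev (y K : ℝ) (hy : 0 < y) :
    ∃ N0 : ℕ, ∀ N : ℕ, N0 ≤ N → K ≤ (N : ℝ) ^ y := by
  have h := (tendsto_rpow_atTop hy).comp (tendsto_natCast_atTop_atTop (R := ℝ))
  exact Filter.eventually_atTop.1 (h.eventually_ge_atTop K)

private theorem par_floor {y : ℝ} (hy : 1 ≤ y) : y / 2 ≤ (⌊y⌋₊ : ℝ) := by
  have h1 := Nat.lt_floor_add_one y
  have h2 : (1 : ℝ) ≤ (⌊y⌋₊ : ℝ) := by
    exact_mod_cast (Nat.one_le_floor_iff y).2 hy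
  linarith

private theorem par_div {M L : ℕ} (hL : 1 ≤ L) (h : 2 * L ≤ M) :
    (M : ℝ) / (4 * L) ≤ ((M / (2 * L) : ℕ) : ℝ) := by
  have hLr : (1 : ℝ) ≤ L := by exact_mod_cast hL
  have hMr : (2 : ℝ) * L ≤ M := by exact_mod_cast h
  have h1 : 1 ≤ (M : ℝ) / ((2 * L : ℕ) : ℝ) := by
    rw [le_div_iff₀ (by positivity)]
    push_cast
    linarith
  have h2 := par_floor h1
  rw [Nat.floor_div_eq_div] at h2
  refine le_trans (le_of_eq ?_) h2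
  push_cast
  field_simp
  ring

private theorem par_ratio {A w : ℝ} (hA : 0 < A) (hw : 0 < w) (hw1 : w ≤ 1) :
    (⌈A⌉₊ : ℝ) * (w / 2) ≤ (⌈A * w⌉₊ : ℝ) := by
  rcases le_or_gt 1 A with h | h
  · have h1 : (⌈A⌉₊ : ℝ) ≤ 2 * A := by
      have := Nat.ceil_lt_add_one hA.le
      linarith
    calc (⌈A⌉₊ : ℝ) * (w / 2) ≤ 2 * A * (w / 2) := mul_le_mul_of_nonneg_right h1 (by linarith)
      _ = A * w := by ring
      _ ≤ (⌈A * w⌉₊ : ℝ) := Nat.le_ceil _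
  · have h1 : ⌈A⌉₊ ≤ 1 := Nat.ceil_le.2 (by push_cast; linarith)
    have h2 : (⌈A⌉₊ : ℝ) ≤ 1 := by exact_mod_cast h1
    have h3 : 1 ≤ ⌈A * w⌉₊ := Nat.one_le_ceil_iff.2 (mul_pos hA hw)
    have h4 : (1 : ℝ) ≤ (⌈A * w⌉₊ : ℝ) := by exact_mod_cast h3
    have h5 : (⌈A⌉₊ : ℝ) * (w / 2) ≤ 1 * (1 / 2) :=
      mul_le_mul h2 (by linarith) (by linarith) (by norm_num)
    linarith

theorem paramsR (k Q : ℕ) (c : ℝ) (hk : 2 ≤ k) (hQ : 1 ≤ Q) (hc : 0 < c) :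
    ∃ c' η : ℝ, 0 < c' ∧ 0 < η ∧ ∃ T0 : ℕ, ∀ T : ℕ, T0 ≤ T →
      ∃ (lo0 M Z : ℕ) (L : ℕ → ℕ), 1 ≤ M ∧ (k + 1) * M ≤ lo0 ∧ (k + 1) * M ≤ Z ∧
        lo0 + L 0 + k * Z ≤ T / 2 ∧
        (∀ j ≤ k, 1 ≤ L j) ∧ (∀ j < k, L (j + 1) ≤ L j) ∧ L k = 1 ∧
        (∀ n : ℕ, 1 ≤ n → n ≤ Q * (T + 1) →
          c * ((Q * (T + 1) : ℕ) : ℝ) ^ ((1 : ℝ) / k - 1) ≤ c * (n : ℝ) ^ ((1 : ℝ) / k - 1)) ∧
        c' * (T : ℝ) ^ η ≤ c * ((Q * (T + 1) : ℕ) : ℝ) ^ ((1 : ℝ) / k - 1) * (L 0 : ℝ) ∧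
        (∀ j < k, c' * (T : ℝ) ^ η ≤
          c * ((Q * (T + 1) : ℕ) : ℝ) ^ ((1 : ℝ) / k - 1) *
            (((M / (2 * L j)) * L (j + 1) : ℕ) : ℝ)) := by
  have hkr : (2 : ℝ) ≤ k := by exact_mod_cast hk
  have hk0 : (0 : ℝ) < k := by linarith
  have hQr : (1 : ℝ) ≤ Q := by exact_mod_cast hQ
  have hQ0 : (0 : ℝ) < Q := by linarith
  obtain ⟨η, hη⟩ : ∃ η : ℝ, η = 1 / (2 * (k : ℝ) * (k + 1)) := ⟨_, rfl⟩
  obtain ⟨ω, hω⟩ : ∃ ω : ℝ, ω = 1 / (k : ℝ) - η := ⟨_, rfl⟩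
  have hη0 : 0 < η := by
    rw [hη]
    positivity
  have hkη : ((k : ℝ) + 1) * η = 1 / (2 * (k : ℝ)) := by
    rw [hη]
    field_simp
  have hω0 : 0 < ω := by
    have h1 : η * 1 ≤ η * ((k : ℝ) + 1) := mul_le_mul_of_nonneg_left (by linarith) hη0.le
    have h2 : 1 / (2 * (k : ℝ)) = 1 / (k : ℝ) / 2 := by
      field_simp
    have h3 : 0 < 1 / (k : ℝ) := by positivity
    rw [hω]
    linarith
  have hω1 : ω ≤ 1 := by
    have h4 : 1 / (k : ℝ) ≤ 1 / 2 := one_div_le_one_div_of_le (by norm_num) hkr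
    rw [hω]
    linarith
  have hkω : (1 - ω) - k * ω ≤ 0 := by
    have h1 : (1 - ω) - k * ω = ((k : ℝ) + 1) * η - 1 / (k : ℝ) := by
      rw [hω]
      field_simp
      ring
    have h2 : 1 / (2 * (k : ℝ)) = 1 / (k : ℝ) / 2 := by
      field_simp
    have h3 : 0 < 1 / (k : ℝ) := by positivity
    rw [h1, hkη, h2]
    linarith
  obtain ⟨N1, hN1⟩ := par_ev ω (64 * ((k : ℝ) + 1) ^ 2) hω0
  refine ⟨c * (2 * (Q : ℝ)) ^ ((1 : ℝ) / k - 1) / (128 * ((k : ℝ) + 1) ^ 2), η, by positivity, hη0,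
    max N1 1, fun T hT => ?_⟩
  have f1 := hN1 T (le_trans (le_max_left _ _) hT)
  have hT1 : 1 ≤ T := le_trans (le_max_right _ _) hT
  have hTr : (1 : ℝ) ≤ (T : ℝ) := by exact_mod_cast hT1
  have hT0 : (0 : ℝ) < (T : ℝ) := by linarith
  have hTω : (T : ℝ) ^ ω ≤ T := by
    calc (T : ℝ) ^ ω ≤ (T : ℝ) ^ (1 : ℝ) := Real.rpow_le_rpow_of_exponent_le hTr hω1
      _ = T := Real.rpow_one _
  obtain ⟨D, hD⟩ : ∃ D : ℕ, D = (k + 1) ^ 2 := ⟨_, rfl⟩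
  have hDr : (D : ℝ) = ((k : ℝ) + 1) ^ 2 := by
    rw [hD]
    push_cast
    ring
  have hD1 : 1 ≤ D := by
    rw [hD]
    exact Nat.one_le_pow _ _ (by omega)
  have hDr1 : (1 : ℝ) ≤ D := by exact_mod_cast hD1
  rw [← hDr] at f1 ⊢
  obtain ⟨M, hM⟩ : ∃ M : ℕ, M = T / (8 * D) := ⟨_, rfl⟩
  have hMT : M * (8 * D) ≤ T := by
    rw [hM]
    exact Nat.div_mul_le_self T (8 * D)
  have hML : (T : ℝ) / (16 * D) ≤ (M : ℝ) := by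
    have h1 : 1 ≤ (T : ℝ) / ((8 * D : ℕ) : ℝ) := by
      rw [le_div_iff₀ (by positivity)]
      push_cast
      linarith
    have h2 := par_floor h1
    rw [Nat.floor_div_eq_div, ← hM] at h2
    refine le_trans (le_of_eq ?_) h2
    push_cast
    field_simp
    ring
  -- the gaps
  obtain ⟨w, hw⟩ : ∃ w : ℝ, w = (T : ℝ) ^ (-ω) := ⟨_, rfl⟩
  have hw0 : 0 < w := by
    rw [hw]
    positivity
  have hw1 : w ≤ 1 := by
    rw [hw]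
    exact Real.rpow_le_one_of_one_le_of_nonpos hTr (by linarith)
  obtain ⟨A, hA⟩ : ∃ A : ℕ → ℝ, ∀ j, A j = (T : ℝ) ^ ((1 - ω) - j * ω) := ⟨_, fun j => rfl⟩
  have hA0 : ∀ j, 0 < A j := by
    intro j
    rw [hA]
    positivity
  have hAs : ∀ j, A (j + 1) = A j * w := by
    intro j
    rw [hA, hA, hw, ← Real.rpow_add hT0]
    congr 1
    push_cast
    ring
  have hAle : ∀ j, A j ≤ A 0 := by
    intro j
    induction j with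
    | zero => exact le_rfl
    | succ j ih =>
      rw [hAs]
      have : A j * w ≤ A j * 1 := mul_le_mul_of_nonneg_left hw1 (hA0 j).le
      linarith
  have hA00 : A 0 = (T : ℝ) ^ (1 - ω) := by
    rw [hA]
    simp
  have hA01 : 1 ≤ A 0 := by
    rw [hA00]
    exact Real.one_le_rpow hTr (by linarith)
  have hTA : A 0 * (T : ℝ) ^ ω = T := by
    rw [hA00, ← Real.rpow_add hT0]
    simp
  have hceil : ∀ j, (⌈A j⌉₊ : ℝ) ≤ 2 * A 0 := by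
    intro j
    have h5 : (⌈A j⌉₊ : ℝ) < A j + 1 := Nat.ceil_lt_add_one (hA0 j).le
    have h6 := hAle j
    linarith
  have hbig : A 0 * (64 * D) ≤ T := by
    calc A 0 * (64 * D) ≤ A 0 * (T : ℝ) ^ ω := mul_le_mul_of_nonneg_left f1 (by linarith)
      _ = T := hTA
  have hL2 : ∀ j, 2 * ⌈A j⌉₊ ≤ M := by
    intro j
    have h5 := hceil j
    have h6 : 4 * A 0 ≤ (T : ℝ) / (16 * D) := by
      rw [le_div_iff₀ (by positivity)]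
      calc 4 * A 0 * (16 * D) = A 0 * (64 * D) := by ring
        _ ≤ T := hbig
    have h9 : (2 : ℝ) * (⌈A j⌉₊ : ℝ) ≤ (M : ℝ) := by linarith
    exact_mod_cast h9
  have hL16 : 16 * ⌈A 0⌉₊ ≤ T := by
    have h5 := hceil 0
    have h6 : A 0 * 64 ≤ A 0 * (64 * D) := mul_le_mul_of_nonneg_left (by linarith) (by linarith)
    have h9 : (16 : ℝ) * (⌈A 0⌉₊ : ℝ) ≤ (T : ℝ) := by linarith
    exact_mod_cast h9
  have hBT : c * ((2 * (Q : ℝ)) ^ ((1 : ℝ) / k - 1) * (T : ℝ) ^ ((1 : ℝ) / k - 1)) ≤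
      c * ((Q * (T + 1) : ℕ) : ℝ) ^ ((1 : ℝ) / k - 1) := by
    refine mul_le_mul_of_nonneg_left ?_ hc.le
    rw [← Real.mul_rpow (by positivity) hT0.le]
    refine Real.rpow_le_rpow_of_nonpos ?_ ?_ ?_
    · have : (0 : ℝ) < Q * ((T : ℝ) + 1) := by positivity
      exact_mod_cast this
    · push_cast
      have : (Q : ℝ) * 1 ≤ Q * T := mul_le_mul_of_nonneg_left hTr hQ0.le
      linarith
    · have h4 : 1 / (k : ℝ) ≤ 1 / 2 := one_div_le_one_div_of_le (by norm_num) hkr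
      linarith
  have hTη : (T : ℝ) ^ ((1 : ℝ) / k - 1) * (T : ℝ) ^ (1 - ω) = (T : ℝ) ^ η := by
    rw [← Real.rpow_add hT0]
    congr 1
    rw [hω]
    ring
  have hkM : (k + 1) * M * 8 ≤ T := by
    have h1 : (k + 1) * M * 8 ≤ M * (8 * D) := by
      rw [hD]
      calc (k + 1) * M * 8 = M * (8 * (k + 1)) := by ring
        _ ≤ M * (8 * (k + 1) ^ 2) :=
          Nat.mul_le_mul_left _ (Nat.mul_le_mul_left _ (Nat.le_self_pow (by norm_num) _))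
    exact h1.trans hMT
  have hkZ : k * ((k + 1) * M) * 8 ≤ T := by
    have h1 : k * ((k + 1) * M) * 8 ≤ M * (8 * D) := by
      rw [hD]
      calc k * ((k + 1) * M) * 8 = M * (8 * (k * (k + 1))) := by ring
        _ ≤ M * (8 * ((k + 1) * (k + 1))) :=
          Nat.mul_le_mul_left _ (Nat.mul_le_mul_left _ (Nat.mul_le_mul_right _ (Nat.le_succ k)))
        _ = M * (8 * (k + 1) ^ 2) := by ring
    exact h1.trans hMT
  have hM1 : 1 ≤ M := by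
    have h1 := hL2 0
    have h2 : 1 ≤ ⌈A 0⌉₊ := Nat.one_le_ceil_iff.2 (hA0 0)
    omega
  have hcc : 0 < c * (2 * (Q : ℝ)) ^ ((1 : ℝ) / k - 1) := by positivity
  refine ⟨T / 8, M, (k + 1) * M, fun j => ⌈A j⌉₊, hM1, ?_, le_rfl, ?_, ?_, ?_, ?_, ?_, ?_, ?_⟩
  · omega
  · show T / 8 + ⌈A 0⌉₊ + k * ((k + 1) * M) ≤ T / 2
    omega
  · intro j _
    exact Nat.one_le_ceil_iff.2 (hA0 j)
  · intro j _
    refine Nat.ceil_mono ?_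
    rw [hAs]
    have : A j * w ≤ A j * 1 := mul_le_mul_of_nonneg_left hw1 (hA0 j).le
    linarith
  · have h5 : A k ≤ 1 := by
      rw [hA]
      exact Real.rpow_le_one_of_one_le_of_nonpos hTr hkω
    have h6 : ⌈A k⌉₊ ≤ 1 := Nat.ceil_le.2 (by push_cast; exact h5)
    have h7 : 1 ≤ ⌈A k⌉₊ := Nat.one_le_ceil_iff.2 (hA0 k)
    exact le_antisymm h6 h7
  · intro n hn1 hn
    refine mul_le_mul_of_nonneg_left ?_ hc.le
    refine Real.rpow_le_rpow_of_nonpos ?_ ?_ ?_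
    · exact_mod_cast hn1
    · exact_mod_cast hn
    · have h4 : 1 / (k : ℝ) ≤ 1 / 2 := one_div_le_one_div_of_le (by norm_num) hkr
      linarith
  · show _ ≤ c * ((Q * (T + 1) : ℕ) : ℝ) ^ ((1 : ℝ) / k - 1) * (⌈A 0⌉₊ : ℝ)
    have h5 : A 0 ≤ (⌈A 0⌉₊ : ℝ) := Nat.le_ceil _
    have h6 : c * ((2 * (Q : ℝ)) ^ ((1 : ℝ) / k - 1) * (T : ℝ) ^ ((1 : ℝ) / k - 1)) * A 0 ≤
        c * ((Q * (T + 1) : ℕ) : ℝ) ^ ((1 : ℝ) / k - 1) * (⌈A 0⌉₊ : ℝ) :=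
      mul_le_mul hBT h5 (by linarith) (by positivity)
    refine le_trans ?_ h6
    rw [hA00]
    have e1 : c * ((2 * (Q : ℝ)) ^ ((1 : ℝ) / k - 1) * (T : ℝ) ^ ((1 : ℝ) / k - 1)) *
        (T : ℝ) ^ (1 - ω) = c * (2 * (Q : ℝ)) ^ ((1 : ℝ) / k - 1) * (T : ℝ) ^ η := by
      rw [← hTη]
      ring
    rw [e1]
    refine mul_le_mul_of_nonneg_right ?_ (by positivity)
    rw [div_le_iff₀ (by positivity)]
    have : c * (2 * (Q : ℝ)) ^ ((1 : ℝ) / k - 1) * 1 ≤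
        c * (2 * (Q : ℝ)) ^ ((1 : ℝ) / k - 1) * (128 * (D : ℝ)) :=
      mul_le_mul_of_nonneg_left (by linarith) hcc.le
    linarith
  · intro j _
    show _ ≤ c * ((Q * (T + 1) : ℕ) : ℝ) ^ ((1 : ℝ) / k - 1) *
            (((M / (2 * ⌈A j⌉₊)) * ⌈A (j + 1)⌉₊ : ℕ) : ℝ)
    have hLj : 1 ≤ ⌈A j⌉₊ := Nat.one_le_ceil_iff.2 (hA0 j)
    have hLr : (0 : ℝ) < (⌈A j⌉₊ : ℝ) := by exact_mod_cast hLj
    have h5 := par_div hLj (hL2 j)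
    have h6 := par_ratio (hA0 j) hw0 hw1
    rw [← hAs] at h6
    have h7 : (M : ℝ) / (4 * ⌈A j⌉₊) * ((⌈A j⌉₊ : ℝ) * (w / 2)) ≤
        ((M / (2 * ⌈A j⌉₊) : ℕ) : ℝ) * (⌈A (j + 1)⌉₊ : ℝ) :=
      mul_le_mul h5 h6 (by positivity) (Nat.cast_nonneg _)
    have h8 : (M : ℝ) / (4 * ⌈A j⌉₊) * ((⌈A j⌉₊ : ℝ) * (w / 2)) = (M : ℝ) * (w / 8) := by
      field_simp
      ring
    have h9 : (T : ℝ) / (16 * D) * (w / 8) ≤
        (((M / (2 * ⌈A j⌉₊)) * ⌈A (j + 1)⌉₊ : ℕ) : ℝ) := by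
      push_cast
      rw [h8] at h7
      exact (mul_le_mul_of_nonneg_right hML (by positivity)).trans h7
    have hTw : (T : ℝ) * w = (T : ℝ) ^ (1 - ω) := by
      rw [hw]
      nth_rewrite 1 [← Real.rpow_one (T : ℝ)]
      rw [← Real.rpow_add hT0]
      congr 1
    have h11 : c * ((2 * (Q : ℝ)) ^ ((1 : ℝ) / k - 1) * (T : ℝ) ^ ((1 : ℝ) / k - 1)) *
        ((T : ℝ) / (16 * D) * (w / 8)) ≤
        c * ((Q * (T + 1) : ℕ) : ℝ) ^ ((1 : ℝ) / k - 1) *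
          (((M / (2 * ⌈A j⌉₊)) * ⌈A (j + 1)⌉₊ : ℕ) : ℝ) :=
      mul_le_mul hBT h9 (by positivity) (by positivity)
    refine le_trans (le_of_eq ?_) h11
    rw [← hTη, ← hTw]
    field_simp
    ring

end Pool.Agent.CrW
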