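import Pool.Agent.CrW.Chain
import Pool.Agent.CrW.Param
import Pool.Agent.SmW.Asym

/-!
# The chain for one tuple of classes, Borel-Cantelli
-/

namespace Pool.Agent.CrW

open MeasureTheory ProbabilityTheory Pool.Agent.SmW Filter

theorem chain_ae {Ω : Type*} [MeasurableSpace Ω] (P : Measure Ω) [IsProbabilityMeasure P]
    (k Q : ℕ) (c : ℝ) (hk : 2 ≤ k) (hQ : 1 ≤ Q) (hc : 0 < c)
    (R : ℕ → Set Ω) (hR : ∀ n, MeasurableSet (R n)) (hi : iIndepSet R P)
    (hP : ∀ n : ℕ, 1 ≤ n → PowRes k Q n → c * (n : ℝ) ^ ((1 : ℝ) / k - 1) ≤ P.real (R n))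
    (cl : ℕ → ℕ) (hcl : ∀ j ≤ k, cl j < Q) (hres : ∀ j ≤ k, PowRes k Q (cl j)) (K : ℕ) :
    ∀ᵐ ω ∂P, ∀ᶠ T : ℕ in atTop, ∀ m : ℕ, T / 2 ≤ m → m ≤ T → ∃ x : Fin (k + 1) → ℕ,
      Function.Injective x ∧ (∀ i, K < x i) ∧ (∀ i : Fin (k + 1), ω ∈ R (cl i + Q * x i)) ∧
      m = ∑ i, x i := by
  classical
  obtain ⟨c', η, hc', hη, T0, hT0⟩ := paramsR k Q c hk hQ hc
  -- indicator variables
  let e : ℕ → Ω → ℕ := fun n => (R n).indicator fun _ => 1
  have hem : ∀ n, Measurable (e n) := fun n => (measurable_const).indicator (hR n)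
  have hei : iIndepFun e P := iIndepSet.iIndepFun_indicator hi
  have he1 : ∀ n, {ω | e n ω = 1} = R n := by
    intro n
    ext ω
    simp only [e, Set.indicator_apply, Set.mem_setOf_eq]
    by_cases h : ω ∈ R n
    · simp [h]
    · simp [h]
  -- all large T: the parameters are large
  have hlarge : ∀ᶠ T : ℕ in atTop, (2 * c * ((K : ℝ) + 1) + 1 ≤ c' * (T : ℝ) ^ η) := by
    have h1 : Tendsto (fun T : ℕ => c' * (T : ℝ) ^ η) atTop atTop :=
      ((tendsto_rpow_atTop hη).comp tendsto_natCast_atTop_atTop).const_mul_atTop hc'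
    exact h1.eventually_ge_atTop _
  obtain ⟨T1, hT1⟩ := eventually_atTop.mp hlarge
  let good : ℕ → Ω → Prop := fun T ω => ∀ m : ℕ, T / 2 ≤ m → m ≤ T → ∃ x : Fin (k + 1) → ℕ,
      Function.Injective x ∧ (∀ i, K < x i) ∧ (∀ i : Fin (k + 1), ω ∈ R (cl i + Q * x i)) ∧
      m = ∑ i, x i
  have key : ∀ T : ℕ, T0 + T1 ≤ T → P.real {ω | ¬ good T ω} ≤
      ((k + 1 : ℕ) : ℝ) * (((T : ℝ) + 1) * Real.exp (-(c' * (T : ℝ) ^ η))) := by
    intro T hT
    obtain ⟨lo0, M, Z, L, hM1, hMlo, hMZ, hαT, hL1, hLdec, hLk, hq, hexp0, hexp⟩ :=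
      hT0 T (by omega)
    set q : ℝ := c * ((Q * (T + 1) : ℕ) : ℝ) ^ ((1 : ℝ) / k - 1) with hqdef
    have hQT : 1 ≤ Q * (T + 1) := Nat.mul_pos hQ (Nat.succ_pos T)
    have hqle : q ≤ c := by
      rw [hqdef]
      have h1 : ((Q * (T + 1) : ℕ) : ℝ) ^ ((1 : ℝ) / k - 1) ≤ 1 := by
        apply Real.rpow_le_one_of_one_le_of_nonpos
        · exact_mod_cast hQT
        · have : (1 : ℝ) / k ≤ 1 := by
            rw [div_le_one (by positivity)]
            exact_mod_cast (by omega : 1 ≤ k)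
          linarith
      calc c * ((Q * (T + 1) : ℕ) : ℝ) ^ ((1 : ℝ) / k - 1) ≤ c * 1 :=
            mul_le_mul_of_nonneg_left h1 hc.le
        _ = c := mul_one c
    have hqnn : 0 ≤ q := by positivity
    -- M is large
    have hMK : K < M := by
      have h1 := hexp 0 (by omega)
      have h2 := hT1 T (by omega)
      have h3 : (M / (2 * L 0)) * L (0 + 1) ≤ M := by
        calc (M / (2 * L 0)) * L (0 + 1) ≤ (M / (2 * L 0)) * (2 * L 0) := by
              apply Nat.mul_le_mul_left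
              have := hLdec 0 (by omega)
              omega
          _ ≤ M := Nat.div_mul_le_self _ _
      have h4 : q * (((M / (2 * L 0)) * L (0 + 1) : ℕ) : ℝ) ≤ c * (M : ℝ) := by
        apply mul_le_mul hqle (by exact_mod_cast h3) (by positivity) hc.le
      have h5 : c * ((K : ℝ) + 1) ≤ c * (M : ℝ) := by
        have h6 : 0 ≤ c * ((K : ℝ) + 1) := by positivity
        linarith
      have h7 : ((K : ℝ) + 1) ≤ (M : ℝ) := le_of_mul_le_mul_left h5 hc
      exact_mod_cast h7
    -- the blocks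
    let X : ℕ → Finset ℕ := fun j => match j with
      | 0 => Finset.Ico lo0 (T + 1)
      | j + 1 => Finset.Ico ((j + 1) * M) ((j + 1) * M + M)
    have hX0 : X 0 = Finset.Ico lo0 (T + 1) := rfl
    have hXs : ∀ j, X (j + 1) = Finset.Ico ((j + 1) * M) ((j + 1) * M + M) := fun j => rfl
    have hloT : lo0 + L 0 + k * Z ≤ T := by omega
    have hXup : ∀ j < k, ∀ x ∈ X (j + 1), M ≤ x ∧ x < (k + 1) * M := by
      intro j hj x hx
      rw [hXs, Finset.mem_Ico] at hx
      have h1 : 1 * M ≤ (j + 1) * M := Nat.mul_le_mul_right M (by omega)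
      have h2 : (j + 1 + 1) * M ≤ (k + 1) * M := Nat.mul_le_mul_right M (by omega)
      have h3 : (j + 1 + 1) * M = (j + 1) * M + M := by ring
      omega
    have hdis : ∀ i ≤ k, ∀ j ≤ k, i ≠ j → Disjoint (X i) (X j) := by
      have aux : ∀ i j, i < j → j ≤ k → Disjoint (X i) (X j) := by
        intro i j hij hjk
        rw [Finset.disjoint_left]
        intro x hx hx2
        obtain ⟨j', rfl⟩ : ∃ j', j = j' + 1 := ⟨j - 1, by omega⟩
        have hup := hXup j' (by omega) x hx2
        rcases Nat.eq_zero_or_pos i with h0 | h0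
        · subst h0
          rw [hX0, Finset.mem_Ico] at hx
          omega
        · obtain ⟨i', rfl⟩ : ∃ i', i = i' + 1 := ⟨i - 1, by omega⟩
          rw [hXs, Finset.mem_Ico] at hx hx2
          have h2 : (i' + 1 + 1) * M ≤ (j' + 1) * M := Nat.mul_le_mul_right M (by omega)
          have h3 : (i' + 1 + 1) * M = (i' + 1) * M + M := by ring
          omega
      intro i hi j hj hij
      rcases lt_or_gt_of_ne hij with h | h
      · exact aux i j h hj
      · exact (aux j i h hi).symm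
    have hXT : ∀ j ≤ k, ∀ x ∈ X j, M ≤ x ∧ x ≤ T := by
      intro j hj x hx
      rcases Nat.eq_zero_or_pos j with h0 | h0
      · subst h0
        rw [hX0, Finset.mem_Ico] at hx
        have : 1 * M ≤ (k + 1) * M := Nat.mul_le_mul_right M (by omega)
        omega
      · obtain ⟨j', rfl⟩ : ∃ j', j = j' + 1 := ⟨j - 1, by omega⟩
        have := hXup j' (by omega) x hx
        omega
    have hPX : ∀ j ≤ k, ∀ x ∈ X j, q ≤ P.real {ω | e (cl j + Q * x) ω = 1} := by
      intro j hj x hx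
      rw [he1]
      have hx2 := hXT j hj x hx
      have hx3 : 1 * 1 ≤ Q * x := Nat.mul_le_mul hQ (by omega)
      have hn : cl j + Q * x ≤ Q * (T + 1) := by
        have h1 := hcl j hj
        have h2 : Q * x ≤ Q * T := Nat.mul_le_mul_left Q hx2.2
        have h3 : Q * (T + 1) = Q * T + Q := by ring
        omega
      refine le_trans (hq (cl j + Q * x) (by omega) hn) (hP _ (by omega) ?_)
      obtain ⟨y, hy⟩ := hres j hj
      refine ⟨y, hy.trans ?_⟩
      have : cl j + Q * 0 ≡ cl j + Q * x [MOD Q] := by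
        simp [Nat.ModEq, Nat.add_mul_mod_self_left]
      simpa using this
    have hch := chainR P e hem hei Q cl lo0 M Z k T (fun j => (j + 1) * M) L X q hqnn hcl hX0
      (fun j _ => hXs j) hdis hL1 hLdec hPX (fun j hj => by
        have h2 : (j + 1 + 1) * M ≤ (k + 1) * M := Nat.mul_le_mul_right M (by omega)
        have h3 : (j + 1 + 1) * M = (j + 1) * M + M := by ring
        show (j + 1) * M + M ≤ Z
        omega)
    have hsub : {ω | ¬ good T ω} ⊆
        {ω | ¬ Dense (iterR Q cl X (fun n => e n ω) k) (L k) (lo0 + L 0 + k * Z) T} := by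
      intro ω hω hD
      apply hω
      intro m hm1 hm2
      obtain ⟨b, hb, hb1, hb2⟩ := hD m (by omega) hm2
      rw [hLk] at hb2
      have hmb : m = b := by omega
      obtain ⟨x, hx, hsum⟩ := mem_iterR Q cl X (fun n => e n ω) k b hb
      refine ⟨x, ?_, ?_, ?_, ?_⟩
      · intro i j hij
        by_contra hne
        have h9 := hdis i (by omega) j (by omega) (fun h => hne (Fin.ext h))
        rw [Finset.disjoint_left] at h9
        exact h9 (hx i).1 (hij ▸ (hx j).1)
      · intro i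
        have := hXT i (by omega) (x i) (hx i).1
        omega
      · intro i
        have h1 := (hx i).2
        have h2 : ω ∈ {ω | e (cl i + Q * x i) ω = 1} := h1
        rw [he1] at h2
        exact h2
      · rw [hmb, hsum]
    refine le_trans (measureReal_mono hsub) (le_trans hch ?_)
    have hb0 : ((T : ℝ) + 1) * Real.exp (-(q * (L 0 : ℝ))) ≤
        ((T : ℝ) + 1) * Real.exp (-(c' * (T : ℝ) ^ η)) := by
      apply mul_le_mul_of_nonneg_left _ (by positivity)
      apply Real.exp_le_exp.mpr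
      linarith
    have hb1 : ∑ j ∈ Finset.range k, ((T : ℝ) + 1) *
        Real.exp (-(q * (((M / (2 * L j)) * L (j + 1) : ℕ) : ℝ))) ≤
        ∑ _j ∈ Finset.range k, ((T : ℝ) + 1) * Real.exp (-(c' * (T : ℝ) ^ η)) := by
      apply Finset.sum_le_sum
      intro j hj
      apply mul_le_mul_of_nonneg_left _ (by positivity)
      apply Real.exp_le_exp.mpr
      have := hexp j (Finset.mem_range.mp hj)
      linarith
    rw [Finset.sum_const, Finset.card_range, nsmul_eq_mul] at hb1
    have hk1 : ((k + 1 : ℕ) : ℝ) * (((T : ℝ) + 1) * Real.exp (-(c' * (T : ℝ) ^ η))) =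
        ((T : ℝ) + 1) * Real.exp (-(c' * (T : ℝ) ^ η)) +
          (k : ℝ) * (((T : ℝ) + 1) * Real.exp (-(c' * (T : ℝ) ^ η))) := by
      rw [Nat.cast_add, Nat.cast_one]
      ring
    rw [hk1]
    exact add_le_add hb0 hb1
  have hsumm := summable_fail (k + 1) c' η hc' hη
  have hfin : ∑' T : ℕ, P {ω | ¬ good (T + (T0 + T1)) ω} ≠ ⊤ := by
    have hle : ∀ T : ℕ, P {ω | ¬ good (T + (T0 + T1)) ω} ≤
        ENNReal.ofReal (((k + 1 : ℕ) : ℝ) * ((((T + (T0 + T1) : ℕ) : ℝ) + 1) *
          Real.exp (-(c' * ((T + (T0 + T1) : ℕ) : ℝ) ^ η)))) := by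
      intro T
      have := key (T + (T0 + T1)) (by omega)
      rw [← ENNReal.ofReal_toReal (measure_ne_top P {ω | ¬ good (T + (T0 + T1)) ω})]
      exact ENNReal.ofReal_le_ofReal this
    have hs2 := (summable_nat_add_iff (T0 + T1)).mpr hsumm
    refine ne_top_of_le_ne_top ?_ (ENNReal.tsum_le_tsum hle)
    exact hs2.tsum_ofReal_ne_top
  have hae := ae_eventually_notMem hfin
  filter_upwards [hae] with ω hω
  rw [eventually_atTop] at hω ⊢
  obtain ⟨a, ha⟩ := hω
  refine ⟨a + (T0 + T1), fun T hT => ?_⟩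
  have h10 := ha (T - (T0 + T1)) (by omega)
  have h11 : T - (T0 + T1) + (T0 + T1) = T := by omega
  rw [h11] at h10
  exact not_not.mp h10

end Pool.Agent.CrW
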