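import Pool.Agent.SmW.Def

/-!
# A random model for Waring's problem with local conditions (helper8, MP_ee77ae_nt)

R is a random set of natural numbers, all of them k-th power residues mod Q, the events n in R
independent, P(n in R) >= c n^(1/k-1) for every k-th power residue n >= 1 mod Q (the density of the
k-th powers in their residue classes).  If every class mod Q is a sum of s k-th powers and
s >= k+1, then almost surely every large N is a sum of s distinct elements of R.  Local part: every
class mod Q is a sum of 4k k-th powers; for k = 2^m >= 8 and 2^k | Q not of 4k-1.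

Notation: v n = 1 means that n is in R.  cl j < Q are fixed residues.  An element of R in the class
cl j is cl j + Q x; we work with the variables x.
-/

namespace Pool.Agent.CrW

open Pool.Agent.SmW

/-- n is a k-th power residue mod Q -/
def PowRes (k Q n : ℕ) : Prop := ∃ x : ℕ, x ^ k ≡ n [MOD Q]

/-- every residue class mod Q is a sum of s k-th powers -/
def LocSum (k Q s : ℕ) : Prop := ∀ a : ℕ, ∃ x : Fin s → ℕ, ∑ i, x i ^ k ≡ a [MOD Q]

/-- sums x_0 + ... + x_j with x_i in X i and cl i + Q x_i in R (v = 1) -/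
def iterR (Q : ℕ) (cl : ℕ → ℕ) (X : ℕ → Finset ℕ) (v : ℕ → ℕ) : ℕ → Set ℕ
  | 0 => {b | b ∈ X 0 ∧ v (cl 0 + Q * b) = 1}
  | j + 1 => {b | ∃ a ∈ iterR Q cl X v j, ∃ x ∈ X (j + 1), v (cl (j + 1) + Q * x) = 1 ∧ b = a + x}

theorem mem_iterR (Q : ℕ) (cl : ℕ → ℕ) (X : ℕ → Finset ℕ) (v : ℕ → ℕ) (t b : ℕ)
    (hb : b ∈ iterR Q cl X v t) :
    ∃ x : Fin (t + 1) → ℕ, (∀ i : Fin (t + 1), x i ∈ X i ∧ v (cl i + Q * x i) = 1) ∧
      b = ∑ i, x i := by
  induction t generalizing b with
  | zero =>
    refine ⟨fun _ => b, fun i => ?_, by simp⟩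
    have hi : i = 0 := Fin.ext (by omega)
    subst hi
    exact hb
  | succ t ih =>
    obtain ⟨a, ha, x, hx, hv, rfl⟩ := hb
    obtain ⟨y, hy, rfl⟩ := ih a ha
    refine ⟨(Fin.snoc y x : Fin (t + 1 + 1) → ℕ), fun i => ?_, ?_⟩
    · refine Fin.lastCases ?_ (fun j => ?_) i
      · simp only [Fin.snoc_last, Fin.val_last]
        exact ⟨hx, hv⟩
      · simp only [Fin.snoc_castSucc, Fin.val_castSucc]
        exact hy j
    · have h : ∑ i, (Fin.snoc y x : Fin (t + 1 + 1) → ℕ) i = ∑ i, y i + x := by
        rw [Fin.sum_univ_castSucc]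
        simp
      exact h.symm

end Pool.Agent.CrW
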