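import Mathlib

/-!
# k-th powers near 1 modulo prime powers

Let p be a prime, k >= 1, tau = v_p(k) (padicValNat p k), g = tau + 1 for p odd, g = tau + 2 for
p = 2.  If u ≡ 1 mod p^g then for every m there is y with y^k ≡ u mod p^m.

Proof.  For m <= g take y = 1.  Induction m -> m+1 for m >= g: let y^k ≡ u mod p^m; y is prime to p
(u is).  Fact: for s >= 1 (s >= 2 if p = 2) and z an integer,
(1 + p^s z)^k ≡ 1 + k p^s z mod p^(s + tau + 1).  (First (1 + p^s z)^p ≡ 1 + p^(s+1) z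
mod p^(s+2) by the binomial theorem: the terms C(p,i) p^(s i) z^i, 2 <= i <= p-1, are divisible by
p^(1+2s), and p^(s p) by p^(s+2) since s p >= s+2 (p >= 3, s >= 1; or p = 2, s >= 2); so
(1 + p^s z)^(p^tau) = 1 + p^(s+tau) z' with z' ≡ z mod p; then raise to the power k' = k/p^tau:
(1 + p^(s+tau) z')^k' ≡ 1 + k' p^(s+tau) z' mod p^(2(s+tau)).)
Put s = m - tau and y' = y (1 + p^s z): y'^k ≡ y^k + y^k k' p^m z mod p^(m+1); choose z with
y^k k' z ≡ (u - y^k)/p^m mod p (y^k k' is prime to p).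
-/

namespace Pool.Agent.CrW

private theorem bin3 (x : ℤ) (n : ℕ) :
    ∃ q : ℤ, (1 + x) ^ n = 1 + n * x + (n.choose 2 : ℕ) * x ^ 2 + x ^ 3 * q := by
  induction n with
  | zero => exact ⟨0, by simp⟩
  | succ n ih =>
    obtain ⟨q, hq⟩ := ih
    refine ⟨q + (n.choose 2 : ℕ) + x * q, ?_⟩
    have h : (n + 1).choose 2 = n + n.choose 2 := by
      rw [Nat.choose_succ_succ' n 1, Nat.choose_one_right]
    rw [pow_succ, hq, h]
    push_cast
    ring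

private theorem step_p {p : ℕ} (hp : p.Prime) {s : ℕ} (hs : 1 ≤ s) (h : p ≠ 2 ∨ 2 ≤ s) (z : ℤ) :
    ∃ r : ℤ, (1 + (p : ℤ) ^ s * z) ^ p = 1 + (p : ℤ) ^ (s + 1) * (z + p * r) := by
  obtain ⟨q, hq⟩ := bin3 ((p : ℤ) ^ s * z) p
  obtain ⟨e, he⟩ : ∃ e : ℕ, s = e + 1 := ⟨s - 1, by omega⟩
  by_cases h2 : p = 2
  · have hs2 : 2 ≤ s := by
      rcases h with h | h
      · exact absurd h2 h
      · exact h
    obtain ⟨f, hf⟩ : ∃ f : ℕ, s = f + 2 := ⟨s - 2, by omega⟩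
    subst h2
    refine ⟨(2 : ℤ) ^ f * z ^ 2, ?_⟩
    rw [hf]
    push_cast
    ring
  · obtain ⟨c, hc⟩ : p ∣ p.choose 2 := hp.dvd_choose_self (by norm_num)
      (lt_of_le_of_ne hp.two_le (Ne.symm h2))
    refine ⟨c * (p : ℤ) ^ (2 * e) * (p : ℤ) * z ^ 2 * 1 * 1 * 0 + c * (p : ℤ) ^ e * z ^ 2 +
      (p : ℤ) ^ (2 * e) * z ^ 3 * q, ?_⟩
    rw [hq, hc, he]
    push_cast
    ring

private theorem step_t {p : ℕ} (hp : p.Prime) (t : ℕ) : ∀ {s : ℕ}, 1 ≤ s → (p ≠ 2 ∨ 2 ≤ s) →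
    ∀ z : ℤ, ∃ r : ℤ, (1 + (p : ℤ) ^ s * z) ^ (p ^ t) = 1 + (p : ℤ) ^ (s + t) * (z + p * r) := by
  induction t with
  | zero =>
    intro s _ _ z
    exact ⟨0, by simp⟩
  | succ t ih =>
    intro s hs h z
    obtain ⟨r, hr⟩ := step_p hp hs h z
    obtain ⟨r', hr'⟩ := ih (s := s + 1) (by omega) (by
      rcases h with h | h
      · exact Or.inl h
      · exact Or.inr (by omega)) (z + p * r)
    refine ⟨r + r', ?_⟩
    rw [pow_succ' p t, pow_mul, hr, hr']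
    ring

private theorem step_k {p : ℕ} (hp : p.Prime) (t k' : ℕ) {s : ℕ} (hs : 1 ≤ s)
    (h : p ≠ 2 ∨ 2 ≤ s) (z : ℤ) :
    ∃ r : ℤ, (1 + (p : ℤ) ^ s * z) ^ (p ^ t * k') = 1 + (p : ℤ) ^ (s + t) * (k' * z + p * r) := by
  obtain ⟨r, hr⟩ := step_t hp t hs h z
  obtain ⟨q, hq⟩ := bin3 ((p : ℤ) ^ (s + t) * (z + p * r)) k'
  obtain ⟨e, he⟩ : ∃ e : ℕ, s + t = e + 1 := ⟨s + t - 1, by omega⟩
  refine ⟨k' * r + (k'.choose 2 : ℕ) * (p : ℤ) ^ e * (z + p * r) ^ 2 +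
    (p : ℤ) ^ (2 * e + 1) * (z + p * r) ^ 3 * q, ?_⟩
  rw [pow_mul, hr, hq, he]
  ring

private theorem gen (p k : ℕ) (hp : p.Prime) (hk : 1 ≤ k) (g : ℕ) (hg : 1 ≤ g)
    (h : p ≠ 2 ∨ 2 ≤ g) (u : ℤ)
    (hu : u ≡ 1 [ZMOD (p : ℤ) ^ (padicValNat p k + g)]) (m : ℕ) :
    ∃ y : ℤ, y ^ k ≡ u [ZMOD (p : ℤ) ^ m] := by
  haveI : Fact p.Prime := ⟨hp⟩
  obtain ⟨t, k', hk', hkk⟩ := Nat.exists_eq_pow_mul_and_not_dvd (n := k) (by omega) p hp.ne_one
  have ht : padicValNat p k = t := by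
    have hk0 : k' ≠ 0 := by
      rintro rfl
      exact hk' (dvd_zero p)
    rw [hkk, padicValNat.mul (pow_ne_zero t hp.ne_zero) hk0, padicValNat.prime_pow,
      padicValNat.eq_zero_of_not_dvd hk', add_zero]
  rw [ht] at hu
  by_cases hm : m ≤ t + g
  · refine ⟨1, ?_⟩
    rw [one_pow]
    exact (Int.ModEq.symm hu).of_dvd (pow_dvd_pow _ hm)
  · push Not at hm
    obtain ⟨j, hj⟩ : ∃ j, m = t + g + j := ⟨m - (t + g), by omega⟩
    subst hj
    clear hm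
    induction j with
    | zero =>
      refine ⟨1, ?_⟩
      rw [one_pow]
      exact (Int.ModEq.symm hu)
    | succ j ih =>
      obtain ⟨y, hy⟩ := ih
      obtain ⟨w, hw⟩ := hy.dvd
      obtain ⟨v, hv⟩ := hu.dvd
      have hyk : ∃ c : ℤ, y ^ k = 1 + p * c := by
        obtain ⟨e, he⟩ : ∃ e : ℕ, t + g = e + 1 := ⟨t + g - 1, by omega⟩
        refine ⟨-((p : ℤ) ^ e * v) - (p : ℤ) ^ (e + j) * w, ?_⟩
        have e1 : y ^ k = u - (p : ℤ) ^ (t + g + j) * w := by linear_combination -hw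
        have e2 : u = 1 - (p : ℤ) ^ (t + g) * v := by linear_combination -hv
        rw [e1, e2, he]
        ring
      obtain ⟨c, hc⟩ := hyk
      have hcop : IsCoprime (y ^ k * (k' : ℤ)) (p : ℤ) := by
        apply IsCoprime.mul_left
        · exact ⟨1, -c, by rw [hc]; ring⟩
        · rw [Nat.isCoprime_iff_coprime]
          exact ((Nat.Prime.coprime_iff_not_dvd hp).2 hk').symm
      obtain ⟨a, b, hab⟩ := hcop
      obtain ⟨r, hr⟩ := step_k hp t k' (s := g + j) (by omega) (by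
        rcases h with h | h
        · exact Or.inl h
        · exact Or.inr (by omega)) (a * w)
      refine ⟨y * (1 + (p : ℤ) ^ (g + j) * (a * w)), ?_⟩
      have e3 : (y * (1 + (p : ℤ) ^ (g + j) * (a * w))) ^ k =
          y ^ k * (1 + (p : ℤ) ^ (g + j + t) * (k' * (a * w) + p * r)) := by
        rw [mul_pow, ← hr, ← hkk]
      rw [e3]
      apply Int.modEq_of_dvd
      refine ⟨w * b - y ^ k * r, ?_⟩
      have e4 : u = y ^ k + (p : ℤ) ^ (t + g + j) * w := by linear_combination hw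
      have e5 : (p : ℤ) ^ (t + g + (j + 1)) = (p : ℤ) ^ (t + g + j) * p := by
        rw [← pow_succ]
        rfl
      have e6 : (p : ℤ) ^ (g + j + t) = (p : ℤ) ^ (t + g + j) := by
        congr 1
        omega
      rw [e4, e5, e6]
      linear_combination (-(p : ℤ) ^ (t + g + j) * w) * hab

theorem hensel_odd (p k : ℕ) (hp : p.Prime) (hp2 : p ≠ 2) (hk : 1 ≤ k) (u : ℤ)
    (hu : u ≡ 1 [ZMOD (p : ℤ) ^ (padicValNat p k + 1)]) (m : ℕ) :
    ∃ y : ℤ, y ^ k ≡ u [ZMOD (p : ℤ) ^ m] :=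
  gen p k hp hk 1 le_rfl (Or.inl hp2) u hu m

theorem hensel_two (k : ℕ) (hk : 1 ≤ k) (u : ℤ)
    (hu : u ≡ 1 [ZMOD (2 : ℤ) ^ (padicValNat 2 k + 2)]) (m : ℕ) :
    ∃ y : ℤ, y ^ k ≡ u [ZMOD (2 : ℤ) ^ m] := by
  have := gen 2 k Nat.prime_two hk 2 (by norm_num) (Or.inr le_rfl) u (by exact_mod_cast hu) m
  exact_mod_cast this

end Pool.Agent.CrW
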