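import Pool.Agent.CrW.Def

/-!
# Every class of k-th power residues contains infinitely many elements of R

Second Borel-Cantelli lemma (measure_limsup_eq_one) for the independent events R (a + Q n), n in ℕ
(Q >= 1, a < Q, PowRes k Q a, so PowRes k Q (a + Q n)), whose probabilities are at least
c (a + Q n)^(1/k - 1) for n >= 1; this is at least c / (a + Q n) >= c/(2 Q n), not summable.
-/

namespace Pool.Agent.CrW

open MeasureTheory ProbabilityTheory

theorem infinite_class {Ω : Type*} [MeasurableSpace Ω] (P : Measure Ω) [IsProbabilityMeasure P]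
    (k Q a : ℕ) (c : ℝ) (hk : 2 ≤ k) (hQ : 1 ≤ Q) (hc : 0 < c) (ha : PowRes k Q a)
    (R : ℕ → Set Ω) (hR : ∀ n, MeasurableSet (R n)) (hi : iIndepSet R P)
    (hP : ∀ n : ℕ, 1 ≤ n → PowRes k Q n → c * (n : ℝ) ^ ((1 : ℝ) / k - 1) ≤ P.real (R n)) :
    ∀ᵐ ω ∂P, {n : ℕ | n ≡ a [MOD Q] ∧ ω ∈ R n}.Infinite := by
  have hinj : Function.Injective (fun m : ℕ => a + Q * m) := by
    intro m m' h
    have h1 : Q * m = Q * m' := Nat.add_left_cancel h
    exact Nat.eq_of_mul_eq_mul_left hQ h1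
  have hind : iIndepSet (fun m : ℕ => R (a + Q * m)) P := hi.precomp hinj
  have hmeas : ∀ m : ℕ, MeasurableSet (R (a + Q * m)) := fun m => hR _
  have hpow : ∀ m : ℕ, PowRes k Q (a + Q * m) := by
    intro m
    obtain ⟨x, hx⟩ := ha
    refine ⟨x, hx.trans ?_⟩
    simp [Nat.ModEq]
  have hsum : (∑' m : ℕ, P (R (a + Q * m))) = ⊤ := by
    by_contra hne
    have h1 : Summable fun m : ℕ => (P (R (a + Q * m))).toReal := ENNReal.summable_toReal hne
    have hD : (0 : ℝ) < (a : ℝ) + Q := by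
      have h2 : (1 : ℝ) ≤ Q := by exact_mod_cast hQ
      have h3 : (0 : ℝ) ≤ a := Nat.cast_nonneg a
      linarith
    have h2 : Summable fun m : ℕ => c / ((a : ℝ) + Q) * (1 / (m : ℝ)) := by
      refine Summable.of_nonneg_of_le (fun m => by positivity) (fun m => ?_) h1
      rcases Nat.eq_zero_or_pos m with h0 | hm
      · rw [h0]
        simp
      have hm1 : (1 : ℝ) ≤ m := by exact_mod_cast hm
      have hn1 : 1 ≤ a + Q * m := by
        have := Nat.mul_le_mul hQ hm
        omega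
      have h3 := hP (a + Q * m) hn1 (hpow m)
      have hx1 : (1 : ℝ) ≤ ((a + Q * m : ℕ) : ℝ) := by exact_mod_cast hn1
      have hx0 : (0 : ℝ) < ((a + Q * m : ℕ) : ℝ) := by linarith
      have h4 : (((a + Q * m : ℕ) : ℝ))⁻¹ ≤ ((a + Q * m : ℕ) : ℝ) ^ ((1 : ℝ) / k - 1) := by
        rw [← Real.rpow_neg_one]
        refine Real.rpow_le_rpow_of_exponent_le hx1 ?_
        have : (0 : ℝ) ≤ 1 / k := by positivity
        linarith
      have h5 : ((a + Q * m : ℕ) : ℝ) ≤ ((a : ℝ) + Q) * m := by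
        push_cast
        have h6 : (a : ℝ) * 1 ≤ a * m := mul_le_mul_of_nonneg_left hm1 (Nat.cast_nonneg a)
        linarith
      have h6 : (((a : ℝ) + Q) * m)⁻¹ ≤ (((a + Q * m : ℕ) : ℝ))⁻¹ := inv_anti₀ hx0 h5
      calc c / ((a : ℝ) + Q) * (1 / (m : ℝ)) = c * (((a : ℝ) + Q) * m)⁻¹ := by
            rw [mul_inv]
            ring
        _ ≤ c * ((a + Q * m : ℕ) : ℝ) ^ ((1 : ℝ) / k - 1) :=
            mul_le_mul_of_nonneg_left (h6.trans h4) hc.le
        _ ≤ P.real (R (a + Q * m)) := h3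
        _ = (P (R (a + Q * m))).toReal := rfl
    have h3 : Summable fun m : ℕ => 1 / (m : ℝ) :=
      (summable_mul_left_iff (div_pos hc hD).ne').1 h2
    exact Real.not_summable_one_div_natCast h3
  have hlim := measure_limsup_eq_one hmeas hind hsum
  have hms : MeasurableSet (Filter.limsup (fun m : ℕ => R (a + Q * m)) Filter.atTop) :=
    MeasurableSet.measurableSet_limsup hmeas
  have hae := (mem_ae_iff_prob_eq_one hms).2 hlim
  filter_upwards [hae] with ω hω
  rw [Filter.mem_limsup_iff_frequently_mem, Nat.frequently_atTop_iff_infinite] at hω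
  refine (hω.image hinj.injOn).mono ?_
  rintro _ ⟨m, hm, rfl⟩
  refine ⟨?_, hm⟩
  simp [Nat.ModEq]

end Pool.Agent.CrW
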