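import Mathlib

/-!
# Sums of k-th powers modulo p^(tau+1), p odd

p odd prime, tau = v_p(k), k' = k/p^tau, G = ZMod (p^(tau+1)), A = {x^k : x in G}, U = the k-th
powers of units.  Let S_s be the set of sums of s elements of A (0 is in A, so S_s is increasing).
(1) A is stable under multiplication by U, hence so is S_s.
(2) If S_s is not G then S_(s+1) is strictly larger than S_s (otherwise S_s + 1 ⊆ S_s, as 1 is in A,
so S_s contains 0, 1, 2, ..., i.e. everything).
(3) An element u of U with u ≡ 1 mod p is 1: u = x^k ≡ x^k' mod p (Fermat: x^p ≡ x mod p), so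
x^k' = 1 + p z and u = (1 + p z)^(p^tau) = 1 in G (a ≡ b mod p implies a^(p^t) ≡ b^(p^t) mod
p^(t+1)).
(4) For a ≠ 0 in G the map u ↦ u a is injective on U: u a = u' a gives (u/u' - 1) a = 0 so p divides
u/u' - 1 (a ≠ 0), u = u' by (3).  So S_(s+1) \ S_s, if not empty, has at least |U| elements (it is
stable under U and does not contain 0): |S_s| >= min(p^(tau+1), 1 + s |U|).
(5) |U| >= (p-1)/gcd(k', p-1) >= (p-1)/k': reduction mod p is injective on U by (3), its image is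
the set of (k', p-1)-th powers... of the cyclic group (ZMod p)ˣ, which has
(p-1)/gcd(k, p-1) elements, and gcd(k, p-1) = gcd(k', p-1) <= k'.  So k' |U| >= p - 1.
(6) So S_s = G as soon as s |U| >= p^(tau+1) - 1; s = 2k works: 2k |U| >= 2 p^tau (p-1)
>= p^(tau+1) (as p >= 3 gives 2(p-1) >= p).
-/

namespace Pool.Agent.CrW

open Finset

open Classical in
/-- sums of `s` powers -/
private noncomputable def SS (N k s : ℕ) [NeZero N] : Finset (ZMod N) :=
  Finset.univ.filter (fun y => ∃ x : Fin s → ZMod N, ∑ i, x i ^ k = y)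

private theorem mem_SS {N k s : ℕ} [NeZero N] {y : ZMod N} :
    y ∈ SS N k s ↔ ∃ x : Fin s → ZMod N, ∑ i, x i ^ k = y := by
  unfold SS
  rw [Finset.mem_filter]
  exact ⟨fun h => h.2, fun h => ⟨Finset.mem_univ _, h⟩⟩

private theorem zero_mem_SS {N k s : ℕ} [NeZero N] (hk : 1 ≤ k) : (0 : ZMod N) ∈ SS N k s := by
  rw [mem_SS]
  refine ⟨fun _ => 0, ?_⟩
  change ∑ _i : Fin s, (0 : ZMod N) ^ k = 0
  rw [zero_pow (by omega)]
  simp

private theorem SS_succ {N k s : ℕ} [NeZero N] {y : ZMod N} (hy : y ∈ SS N k s) (v : ZMod N) :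
    v ^ k + y ∈ SS N k (s + 1) := by
  rw [mem_SS] at hy ⊢
  obtain ⟨x, rfl⟩ := hy
  refine ⟨Fin.cons v x, ?_⟩
  rw [Fin.sum_univ_succ]
  simp

private theorem SS_mono {N k s : ℕ} [NeZero N] (hk : 1 ≤ k) {y : ZMod N} (hy : y ∈ SS N k s) :
    y ∈ SS N k (s + 1) := by
  have h := SS_succ hy 0
  rwa [zero_pow (by omega), zero_add] at h

private theorem SS_mul {N k s : ℕ} [NeZero N] {y : ZMod N} (hy : y ∈ SS N k s) (v : ZMod N) :
    v ^ k * y ∈ SS N k s := by
  rw [mem_SS] at hy ⊢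
  obtain ⟨x, rfl⟩ := hy
  refine ⟨fun i => v * x i, ?_⟩
  rw [Finset.mul_sum]
  apply Finset.sum_congr rfl
  intro i _
  rw [mul_pow]

open Classical in
/-- one more summand -/
private theorem SS_grow {N k : ℕ} [NeZero N] (hk : 1 ≤ k)
    (hinj : ∀ (v : (ZMod N)ˣ) (b : ZMod N), b ≠ 0 → (v : ZMod N) ^ k * b = b → v ^ k = 1)
    (s : ℕ) (hs : SS N k s ≠ Finset.univ) :
    (SS N k s).card + (Finset.univ.image (fun v : (ZMod N)ˣ => v ^ k)).card ≤ (SS N k (s + 1)).card := by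
  obtain ⟨b0, hb0, hb1⟩ : ∃ b ∈ SS N k s, 1 + b ∉ SS N k s := by
    by_contra hcon
    push Not at hcon
    apply hs
    have h1 : ∀ n : ℕ, (n : ZMod N) ∈ SS N k s := by
      intro n
      induction n with
      | zero =>
        rw [Nat.cast_zero]
        exact zero_mem_SS hk
      | succ n ih =>
        rw [Nat.cast_succ, add_comm]
        exact hcon _ ih
    ext y
    refine ⟨fun _ => Finset.mem_univ _, fun _ => ?_⟩
    rw [← ZMod.natCast_zmod_val y]
    exact h1 _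
  obtain ⟨b, hb⟩ : ∃ b, b = 1 + b0 := ⟨_, rfl⟩
  rw [← hb] at hb1
  have hb2 : b ∈ SS N k (s + 1) := by
    have := SS_succ hb0 1
    rw [one_pow] at this
    rwa [hb]
  have hbne : b ≠ 0 := by
    rintro h
    rw [h] at hb1
    exact hb1 (zero_mem_SS hk)
  have hV : ((Finset.univ.image (fun v : (ZMod N)ˣ => v ^ k)).image (fun u : (ZMod N)ˣ => (u : ZMod N) * b)).card =
      (Finset.univ.image (fun v : (ZMod N)ˣ => v ^ k)).card := by
    apply Finset.card_image_of_injOn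
    intro u hu u' hu' he
    obtain ⟨v, _, rfl⟩ := Finset.mem_image.1 (Finset.mem_coe.1 hu)
    obtain ⟨v', _, rfl⟩ := Finset.mem_image.1 (Finset.mem_coe.1 hu')
    simp only at he
    have h1 := hinj (v'⁻¹ * v) b hbne (by
      have h2 : (((v'⁻¹ * v : (ZMod N)ˣ) : ZMod N)) ^ k * b = ((v'⁻¹ ^ k : (ZMod N)ˣ) : ZMod N) * (((v ^ k : (ZMod N)ˣ) : ZMod N) * b) := by
        push_cast
        rw [mul_pow]
        ring
      rw [h2, he, ← mul_assoc, ← Units.val_mul, ← mul_pow, inv_mul_cancel, one_pow, Units.val_one, one_mul])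
    rw [mul_pow, inv_pow] at h1
    exact (inv_mul_eq_one.1 h1).symm
  have hdisj : Disjoint (SS N k s)
      ((Finset.univ.image (fun v : (ZMod N)ˣ => v ^ k)).image (fun u : (ZMod N)ˣ => (u : ZMod N) * b)) := by
    rw [Finset.disjoint_left]
    intro y hy hy2
    obtain ⟨u, hu, rfl⟩ := Finset.mem_image.1 hy2
    obtain ⟨v, _, rfl⟩ := Finset.mem_image.1 hu
    apply hb1
    have h1 := SS_mul hy ((v⁻¹ : (ZMod N)ˣ) : ZMod N)
    rw [← mul_assoc, ← Units.val_pow_eq_pow_val, ← Units.val_mul, ← mul_pow, inv_mul_cancel, one_pow, Units.val_one,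
      one_mul] at h1
    exact h1
  rw [← hV, ← Finset.card_union_of_disjoint hdisj]
  apply Finset.card_le_card
  intro y hy
  rcases Finset.mem_union.1 hy with h | h
  · exact SS_mono hk h
  · obtain ⟨u, hu, rfl⟩ := Finset.mem_image.1 h
    obtain ⟨v, _, rfl⟩ := Finset.mem_image.1 hu
    have h1 := SS_mul hb2 (v : ZMod N)
    rwa [← Units.val_pow_eq_pow_val] at h1

open Classical in
private theorem SS_card {N k : ℕ} [NeZero N] (hk : 1 ≤ k)
    (hinj : ∀ (v : (ZMod N)ˣ) (b : ZMod N), b ≠ 0 → (v : ZMod N) ^ k * b = b → v ^ k = 1)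
    (s : ℕ) : SS N k s = Finset.univ ∨
    1 + s * (Finset.univ.image (fun v : (ZMod N)ˣ => v ^ k)).card ≤ (SS N k s).card := by
  induction s with
  | zero =>
    right
    rw [zero_mul, add_zero]
    exact Finset.card_pos.2 ⟨0, zero_mem_SS hk⟩
  | succ s ih =>
    by_cases h : SS N k s = Finset.univ
    · left
      ext y
      refine ⟨fun _ => Finset.mem_univ _, fun _ => SS_mono hk ?_⟩
      rw [h]
      exact Finset.mem_univ _
    · right
      rcases ih with h1 | h1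
      · exact absurd h1 h
      · have h2 := SS_grow hk hinj s h
        rw [add_mul, one_mul]
        omega

/-- powers congruent to one -/
private theorem pow_one_of {p τ k' : ℕ} (hp : p.Prime) (a : ℤ)
    (h : (p : ℤ) ∣ a ^ (p ^ τ * k') - 1) : (p : ℤ) ^ (τ + 1) ∣ a ^ (p ^ τ * k') - 1 := by
  have : Fact p.Prime := ⟨hp⟩
  have h1 : ((a : ZMod p) ^ (p ^ τ * k')) = (a : ZMod p) ^ k' := by
    rw [mul_comm, pow_mul, ZMod.pow_card_pow]
  have h2 : (a : ZMod p) ^ k' = 1 := by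
    rw [← h1]
    have h3 := (ZMod.intCast_zmod_eq_zero_iff_dvd (a ^ (p ^ τ * k') - 1) p).2 h
    push_cast at h3
    exact sub_eq_zero.1 h3
  have h4 : (p : ℤ) ∣ a ^ k' - 1 := by
    apply (ZMod.intCast_zmod_eq_zero_iff_dvd (a ^ k' - 1) p).1
    push_cast
    rw [h2, sub_self]
  have h5 := dvd_sub_pow_of_dvd_sub h4 τ
  rw [one_pow, ← pow_mul, mul_comm k'] at h5
  exact h5

private theorem unit_iff {p m : ℕ} (hp : p.Prime) (x : ZMod (p ^ (m + 1))) :
    IsUnit x ↔ ¬ p ∣ x.val := by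
  have : NeZero (p ^ (m + 1)) := ⟨pow_ne_zero _ hp.ne_zero⟩
  conv_lhs => rw [← ZMod.natCast_zmod_val x]
  rw [ZMod.isUnit_iff_coprime, Nat.coprime_pow_right_iff (by omega), Nat.coprime_comm, hp.coprime_iff_not_dvd]

private theorem inj_of {p τ k' : ℕ} (hp : p.Prime) (v : (ZMod (p ^ (τ + 1)))ˣ) (b : ZMod (p ^ (τ + 1)))
    (hb : b ≠ 0) (h : (v : ZMod (p ^ (τ + 1))) ^ (p ^ τ * k') * b = b) : v ^ (p ^ τ * k') = 1 := by
  have : NeZero (p ^ (τ + 1)) := ⟨pow_ne_zero _ hp.ne_zero⟩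
  have h1 : ¬ IsUnit ((v : ZMod (p ^ (τ + 1))) ^ (p ^ τ * k') - 1) := by
    intro hu
    apply hb
    have h2 : ((v : ZMod (p ^ (τ + 1))) ^ (p ^ τ * k') - 1) * b = 0 := by
      rw [sub_mul, h, one_mul, sub_self]
    exact (hu.mul_right_eq_zero).1 h2
  rw [unit_iff hp, not_not] at h1
  obtain ⟨a, ha⟩ : ∃ a : ℤ, a = ((v : ZMod (p ^ (τ + 1))).val : ℤ) := ⟨_, rfl⟩
  have hva : (v : ZMod (p ^ (τ + 1))) = (a : ZMod (p ^ (τ + 1))) := by
    rw [ha]
    push_cast
    exact (ZMod.natCast_zmod_val _).symm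
  have h3 : (p : ℤ) ∣ a ^ (p ^ τ * k') - 1 := by
    have h4 : (((a ^ (p ^ τ * k') - 1 : ℤ)) : ZMod (p ^ (τ + 1))) =
        (((((v : ZMod (p ^ (τ + 1))) ^ (p ^ τ * k') - 1).val : ℤ)) : ZMod (p ^ (τ + 1))) := by
      push_cast
      rw [ZMod.natCast_zmod_val, hva]
    rw [ZMod.intCast_eq_intCast_iff] at h4
    have h5 : (p : ℤ) ∣ ((p ^ (τ + 1) : ℕ) : ℤ) := by
      push_cast
      exact dvd_pow_self _ (by omega)
    have h6 := h4.of_dvd h5
    exact h6.dvd_iff.2 (by exact_mod_cast h1)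
  have h4 := pow_one_of hp a h3
  apply Units.ext
  rw [Units.val_pow_eq_pow_val, Units.val_one, hva]
  have h5 := (ZMod.intCast_zmod_eq_zero_iff_dvd (a ^ (p ^ τ * k') - 1) (p ^ (τ + 1))).2 (by
    push_cast
    exact h4)
  push_cast at h5
  exact sub_eq_zero.1 h5

open Classical in
private theorem card_U {p τ k' : ℕ} (hp : p.Prime) (hk' : 1 ≤ k') [NeZero (p ^ (τ + 1))] :
    p - 1 ≤ k' * (Finset.univ.image (fun v : (ZMod (p ^ (τ + 1)))ˣ => v ^ (p ^ τ * k'))).card := by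
  have : Fact p.Prime := ⟨hp⟩
  have hdvd : p ∣ p ^ (τ + 1) := dvd_pow_self _ (by omega)
  have h1 : (Finset.univ.erase (0 : ZMod p)).card ≤
      k' * ((Finset.univ.erase (0 : ZMod p)).image (fun x => x ^ k')).card := by
    apply Finset.card_le_mul_card_image
    intro a _
    refine le_trans (Finset.card_le_card (t := (Polynomial.nthRoots k' a).toFinset) ?_)
      ((Multiset.toFinset_card_le _).trans (Polynomial.card_nthRoots k' a))
    intro x hx
    rw [Multiset.mem_toFinset, Polynomial.mem_nthRoots (by omega)]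
    exact (Finset.mem_filter.1 hx).2
  rw [Finset.card_erase_of_mem (Finset.mem_univ _), Finset.card_univ, ZMod.card] at h1
  refine h1.trans (Nat.mul_le_mul_left _ ?_)
  have h2 : (Finset.univ.erase (0 : ZMod p)).image (fun x => x ^ k') ⊆
      (Finset.univ.image (fun v : (ZMod (p ^ (τ + 1)))ˣ => v ^ (p ^ τ * k'))).image
        (fun u : (ZMod (p ^ (τ + 1)))ˣ => ZMod.castHom hdvd (ZMod p) (u : ZMod (p ^ (τ + 1)))) := by
    intro y hy
    obtain ⟨x, hx, rfl⟩ := Finset.mem_image.1 hy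
    have hx0 : x ≠ 0 := (Finset.mem_erase.1 hx).1
    have hu : IsUnit ((x.val : ℕ) : ZMod (p ^ (τ + 1))) := by
      rw [ZMod.isUnit_iff_coprime, Nat.coprime_pow_right_iff (by omega), Nat.coprime_comm, hp.coprime_iff_not_dvd]
      intro hd
      have h3 := Nat.eq_zero_of_dvd_of_lt hd (ZMod.val_lt x)
      exact hx0 ((ZMod.val_eq_zero x).1 h3)
    obtain ⟨v, hv⟩ := hu
    refine Finset.mem_image.2 ⟨v ^ (p ^ τ * k'), Finset.mem_image.2 ⟨v, Finset.mem_univ _, rfl⟩, ?_⟩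
    rw [Units.val_pow_eq_pow_val, map_pow, hv, map_natCast, ZMod.natCast_zmod_val, mul_comm, pow_mul,
      ZMod.pow_card_pow]
  exact (Finset.card_le_card h2).trans Finset.card_image_le

/-- every integer is a sum of 2k k-th powers modulo p^(v_p(k)+1), p odd -/
theorem sum_two_k (p k : ℕ) (hp : p.Prime) (hp2 : p ≠ 2) (hk : 1 ≤ k) (a : ℤ) :
    ∃ x : Fin (2 * k) → ℤ, ∑ i, x i ^ k ≡ a [ZMOD (p : ℤ) ^ (padicValNat p k + 1)] := by
  classical
  have : Fact p.Prime := ⟨hp⟩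
  obtain ⟨τ, hτ⟩ : ∃ τ, τ = padicValNat p k := ⟨_, rfl⟩
  rw [← hτ]
  obtain ⟨k', hk'⟩ : ∃ k', k = p ^ τ * k' := by
    rw [hτ]
    exact pow_padicValNat_dvd
  have hk'1 : 1 ≤ k' := by
    rcases Nat.eq_zero_or_pos k' with h | h
    · rw [h, mul_zero] at hk'
      omega
    · exact h
  have : NeZero (p ^ (τ + 1)) := ⟨pow_ne_zero _ hp.ne_zero⟩
  have hp3 : 3 ≤ p := by
    have := hp.two_le
    omega
  have hU := card_U (τ := τ) hp hk'1
  have hcard := SS_card (N := p ^ (τ + 1)) (k := p ^ τ * k') (by rw [← hk']; exact hk)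
    (fun v b hb h => inj_of hp v b hb h) (2 * (p ^ τ * k'))
  have hall : SS (p ^ (τ + 1)) k (2 * k) = Finset.univ := by
    rw [← hk'] at hcard
    rcases hcard with h | h
    · exact h
    · exfalso
      have h1 : (SS (p ^ (τ + 1)) k (2 * k)).card ≤ p ^ (τ + 1) := by
        refine (Finset.card_le_univ _).trans (le_of_eq ?_)
        rw [ZMod.card]
      rw [← hk'] at hU
      have h2 : p ^ (τ + 1) ≤ 2 * k * (Finset.univ.image (fun v : (ZMod (p ^ (τ + 1)))ˣ => v ^ k)).card := by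
        calc p ^ (τ + 1) = p ^ τ * p := pow_succ _ _
          _ ≤ p ^ τ * (2 * (p - 1)) := Nat.mul_le_mul_left _ (by omega)
          _ ≤ p ^ τ * (2 * (k' * (Finset.univ.image (fun v : (ZMod (p ^ (τ + 1)))ˣ => v ^ k)).card)) :=
              Nat.mul_le_mul_left _ (Nat.mul_le_mul_left _ hU)
          _ = 2 * (p ^ τ * k') * (Finset.univ.image (fun v : (ZMod (p ^ (τ + 1)))ˣ => v ^ k)).card := by ring
          _ = _ := by rw [← hk']
      omega
  have hmem : (a : ZMod (p ^ (τ + 1))) ∈ SS (p ^ (τ + 1)) k (2 * k) := by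
    rw [hall]
    exact Finset.mem_univ _
  obtain ⟨x, hx⟩ := mem_SS.1 hmem
  refine ⟨fun i => ((x i).val : ℤ), ?_⟩
  have h1 : (((∑ i, ((x i).val : ℤ) ^ k : ℤ)) : ZMod (p ^ (τ + 1))) = (a : ZMod (p ^ (τ + 1))) := by
    rw [← hx]
    push_cast
    apply Finset.sum_congr rfl
    intro i _
    rw [ZMod.natCast_zmod_val]
  have h2 := (ZMod.intCast_eq_intCast_iff _ _ _).1 h1
  push_cast at h2 ⊢
  exact h2

end Pool.Agent.CrW
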