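import Pool.Agent.CrW.Def
import Pool.Agent.CrW.Hensel
import Pool.Agent.CrW.Orbit

/-!
# Every residue class is a sum of 4k k-th powers

(A) prime powers p^m, p odd: let a be an integer.  By sum_two_k there are 2k integers x_i with
Σ x_i^k ≡ a - 1 mod p^(tau+1), so u = a - Σ x_i^k ≡ 1 mod p^(tau+1), and u ≡ y^k mod p^m by
hensel_odd: 2k+1 <= 4k summands (add zeros; 0^k = 0 as k >= 1; if 2k + 1 > 4k, impossible for
k >= 1).
(B) p = 2: let j in [0, 2^(tau+2)) with j ≡ a - 1 mod 2^(tau+2); u = a - j·1^k ≡ 1 mod 2^(tau+2) is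
y^k mod 2^m by hensel_two; j + 1 <= 2^(tau+2) <= 4k summands (2^tau divides k).
Integers can be replaced by natural numbers modulo p^m.
(C) Coprime moduli: Chinese remainder theorem for each x_i; induction with
Nat.recOnPosPrimePosCoprime (Q = 1 trivial).
-/

namespace Pool.Agent.CrW

/-- integral version of `LocSum`, summands indexed by an initial segment -/
private def LZ (k : ℕ) (M : ℤ) (s : ℕ) : Prop :=
  ∀ a : ℤ, ∃ x : ℕ → ℤ, ∑ i ∈ Finset.range s, x i ^ k ≡ a [ZMOD M]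

private theorem LZ.pad {k s t : ℕ} {M : ℤ} (hk : 1 ≤ k) (h : LZ k M s) (hst : s ≤ t) :
    LZ k M t := by
  intro a
  obtain ⟨x, hx⟩ := h a
  refine ⟨fun i => if i < s then x i else 0, ?_⟩
  have h1 : ∑ i ∈ Finset.range t, (if i < s then x i else 0) ^ k =
      ∑ i ∈ Finset.range s, x i ^ k := by
    have h2 : ∑ i ∈ Finset.range s, (if i < s then x i else 0) ^ k =
        ∑ i ∈ Finset.range s, x i ^ k := by
      refine Finset.sum_congr rfl fun i hi => ?_
      rw [if_pos (Finset.mem_range.1 hi)]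
    rw [← h2]
    refine (Finset.sum_subset (Finset.range_mono hst) fun i _ hi => ?_).symm
    rw [Finset.mem_range] at hi
    rw [if_neg hi, zero_pow (by omega)]
  rw [h1]
  exact hx

private theorem LZ.odd {p k : ℕ} (hp : p.Prime) (hp2 : p ≠ 2) (hk : 1 ≤ k) (m : ℕ) :
    LZ k ((p : ℤ) ^ m) (4 * k) := by
  refine LZ.pad hk (s := 2 * k + 1) (fun a => ?_) (by omega)
  obtain ⟨x, hx⟩ := sum_two_k p k hp hp2 hk (a - 1)
  have hu : a - ∑ i, x i ^ k ≡ 1 [ZMOD (p : ℤ) ^ (padicValNat p k + 1)] := by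
    have h1 := (Int.ModEq.refl a).sub hx
    have h2 : a - (a - 1) = 1 := by ring
    rwa [h2] at h1
  obtain ⟨y, hy⟩ := hensel_odd p k hp hp2 hk _ hu m
  refine ⟨fun i => if h : i < 2 * k then x ⟨i, h⟩ else y, ?_⟩
  rw [Finset.sum_range_succ]
  have h1 : ∑ i ∈ Finset.range (2 * k), (if h : i < 2 * k then x ⟨i, h⟩ else y) ^ k =
      ∑ i, x i ^ k := by
    rw [Finset.sum_range]
    refine Finset.sum_congr rfl fun i _ => ?_
    rw [dif_pos i.2]
  have h4 : (fun i => if h : i < 2 * k then x ⟨i, h⟩ else y) (2 * k) = y :=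
    dif_neg (lt_irrefl _)
  rw [h1, h4]
  have h2 := hy.add_left (∑ i, x i ^ k)
  have h3 : ∑ i, x i ^ k + (a - ∑ i, x i ^ k) = a := by ring
  rwa [h3] at h2

private theorem LZ.two {k : ℕ} (hk : 1 ≤ k) (m : ℕ) : LZ k ((2 : ℤ) ^ m) (4 * k) := by
  have hdvd : 2 ^ padicValNat 2 k ∣ k := pow_padicValNat_dvd
  have hle : 2 ^ padicValNat 2 k ≤ k := Nat.le_of_dvd hk hdvd
  have hle4 : 2 ^ (padicValNat 2 k + 2) ≤ 4 * k := by
    rw [pow_add]
    omega
  refine LZ.pad hk (s := 2 ^ (padicValNat 2 k + 2)) (fun a => ?_) hle4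
  have hpos : (0 : ℤ) < 2 ^ (padicValNat 2 k + 2) := by positivity
  obtain ⟨j, hj⟩ := Int.eq_ofNat_of_zero_le (Int.emod_nonneg (a - 1) hpos.ne')
  have hjlt : j < 2 ^ (padicValNat 2 k + 2) := by
    have h1 := Int.emod_lt_of_pos (a - 1) hpos
    rw [hj] at h1
    exact_mod_cast h1
  have hu : a - (j : ℤ) ≡ 1 [ZMOD (2 : ℤ) ^ (padicValNat 2 k + 2)] := by
    have h1 : (j : ℤ) ≡ a - 1 [ZMOD (2 : ℤ) ^ (padicValNat 2 k + 2)] := by
      rw [← hj]
      exact Int.mod_modEq _ _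
    have h2 := (Int.ModEq.refl a).sub h1
    have h3 : a - (a - 1) = 1 := by ring
    rwa [h3] at h2
  obtain ⟨y, hy⟩ := hensel_two k hk _ hu m
  refine ⟨fun i => if i < j then 1 else if i = j then y else 0, ?_⟩
  have h1 : ∑ i ∈ Finset.range (2 ^ (padicValNat 2 k + 2)),
      (if i < j then (1 : ℤ) else if i = j then y else 0) ^ k = (j : ℤ) + y ^ k := by
    have h2 : ∑ i ∈ Finset.range (j + 1),
        (if i < j then (1 : ℤ) else if i = j then y else 0) ^ k = (j : ℤ) + y ^ k := by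
      rw [Finset.sum_range_succ, if_neg (lt_irrefl _), if_pos rfl]
      congr 1
      rw [Finset.sum_congr rfl (g := fun _ => (1 : ℤ)) fun i hi => by
        rw [if_pos (Finset.mem_range.1 hi), one_pow]]
      simp
    rw [← h2]
    refine (Finset.sum_subset (Finset.range_mono hjlt) fun i _ hi => ?_).symm
    rw [Finset.mem_range] at hi
    rw [if_neg (by omega), if_neg (by omega), zero_pow (by omega)]
  rw [h1]
  have h2 := hy.add_left (j : ℤ)
  have h3 : (j : ℤ) + (a - j) = a := by ring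
  rwa [h3] at h2

private theorem LZ.mul {k s M N : ℕ} (hMN : Nat.Coprime M N) (h1 : LZ k (M : ℤ) s)
    (h2 : LZ k (N : ℤ) s) : LZ k ((M * N : ℕ) : ℤ) s := by
  intro a
  obtain ⟨x, hx⟩ := h1 a
  obtain ⟨y, hy⟩ := h2 a
  obtain ⟨u, v, huv⟩ := Nat.isCoprime_iff_coprime.2 hMN
  refine ⟨fun i => x i * (v * N) + y i * (u * M), ?_⟩
  have c1 : ∀ i, x i * (v * N) + y i * (u * M) ≡ x i [ZMOD (M : ℤ)] := by
    intro i
    apply Int.modEq_iff_dvd.2
    refine ⟨u * (x i - y i), ?_⟩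
    have h3 : v * (N : ℤ) = 1 - u * M := by linarith
    rw [h3]
    ring
  have c2 : ∀ i, x i * (v * N) + y i * (u * M) ≡ y i [ZMOD (N : ℤ)] := by
    intro i
    apply Int.modEq_iff_dvd.2
    refine ⟨v * (y i - x i), ?_⟩
    have h3 : u * (M : ℤ) = 1 - v * N := by linarith
    rw [h3]
    ring
  have d1 : ∑ i ∈ Finset.range s, (x i * (v * N) + y i * (u * M)) ^ k ≡ a [ZMOD (M : ℤ)] :=
    (Int.ModEq.sum fun i _ => (c1 i).pow k).trans hx
  have d2 : ∑ i ∈ Finset.range s, (x i * (v * N) + y i * (u * M)) ^ k ≡ a [ZMOD (N : ℤ)] :=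
    (Int.ModEq.sum fun i _ => (c2 i).pow k).trans hy
  push_cast
  exact (Int.modEq_and_modEq_iff_modEq_mul (by simpa using hMN)).1 ⟨d1, d2⟩

private theorem LZ.all {k : ℕ} (hk : 1 ≤ k) (Q : ℕ) : 1 ≤ Q → LZ k (Q : ℤ) (4 * k) := by
  induction Q using Nat.recOnPosPrimePosCoprime with
  | prime_pow p n hp _ =>
    intro _
    by_cases h2 : p = 2
    · subst h2
      have := LZ.two hk n
      exact_mod_cast this
    · have := LZ.odd hp h2 hk n
      exact_mod_cast this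
  | zero => intro h; omega
  | one =>
    intro _ a
    refine ⟨fun _ => 0, ?_⟩
    rw [Nat.cast_one]
    exact Int.modEq_one
  | coprime a b ha hb hab iha ihb =>
    intro _
    exact LZ.mul hab (iha (by omega)) (ihb (by omega))

theorem locSum (k Q : ℕ) (hk : 1 ≤ k) (hQ : 1 ≤ Q) : LocSum k Q (4 * k) := by
  intro a
  obtain ⟨x, hx⟩ := LZ.all hk Q hQ a
  have hQ0 : (0 : ℤ) < Q := by exact_mod_cast hQ
  refine ⟨fun i => (x i % Q).toNat, ?_⟩
  have h1 : (((∑ i : Fin (4 * k), (x i % Q).toNat ^ k : ℕ)) : ℤ) ≡ (a : ℤ) [ZMOD Q] := by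
    refine Int.ModEq.trans ?_ hx
    rw [Finset.sum_range]
    push_cast
    refine Int.ModEq.sum fun i _ => Int.ModEq.pow k ?_
    rw [Int.toNat_of_nonneg (Int.emod_nonneg _ hQ0.ne')]
    exact Int.mod_modEq _ _
  exact (Int.natCast_modEq_iff).1 h1

end Pool.Agent.CrW
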