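import Pool.Agent.CrW.Def

/-!
# For k = 2^m >= 8 and 2^k | Q, 4k - 1 k-th powers do not reach the class of 4k modulo Q

k = 2^m, m >= 3, so k >= m + 2 + 1 and 4k = 2^(m+2) divides 2^k and 4k < 2^k.  If x is odd then
x^k ≡ 1 mod 2^(m+2) (induction on m: x^2 ≡ 1 mod 8, squaring adds one factor 2); if x is even then
2^k | x^k.  Suppose Σ_{i < 4k-1} x_i^k ≡ 4k mod Q, hence mod 2^k and mod 4k.  Modulo 4k the sum is
the number n1 of odd x_i, so 4k | n1 <= 4k - 1, n1 = 0.  So all x_i are even, the sum is 0 mod 2^k,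
and 2^k | 4k, contradiction.
-/

namespace Pool.Agent.CrW

private theorem odd_pow (x : ℕ) (hx : Odd x) (m : ℕ) :
    ∃ t : ℕ, x ^ (2 ^ (m + 1)) = 1 + 2 ^ (m + 3) * t := by
  induction m with
  | zero =>
    obtain ⟨y, rfl⟩ := hx
    obtain ⟨z, hz⟩ := Nat.even_mul_succ_self y
    refine ⟨z, ?_⟩
    have h : (2 * y + 1) ^ 2 ^ (0 + 1) = 4 * (y * (y + 1)) + 1 := by
      rw [zero_add, pow_one]; ring
    rw [h, hz]
    ring
  | succ m ih =>
    obtain ⟨t, ht⟩ := ih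
    refine ⟨t + 2 ^ (m + 2) * t ^ 2, ?_⟩
    have h : x ^ 2 ^ (m + 1 + 1) = (x ^ 2 ^ (m + 1)) ^ 2 := by
      rw [← pow_mul, ← pow_succ]
    rw [h, ht]
    ring

private theorem two_pow_gt (m : ℕ) (hm : 3 ≤ m) : m + 2 < 2 ^ m := by
  induction m, hm using Nat.le_induction with
  | base => norm_num
  | succ n hn ih =>
    rw [pow_succ]
    omega

theorem not_locSum (m Q : ℕ) (hm : 3 ≤ m) (hQ : 2 ^ (2 ^ m) ∣ Q) :
    ¬ LocSum (2 ^ m) Q (4 * 2 ^ m - 1) := by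
  intro hloc
  obtain ⟨x, hx⟩ := hloc (2 ^ (m + 2))
  have hbig := two_pow_gt m hm
  have h1 : ∑ i, x i ^ 2 ^ m ≡ 2 ^ (m + 2) [MOD 2 ^ (2 ^ m)] := hx.of_dvd hQ
  have hd : 2 ^ (m + 2) ∣ 2 ^ (2 ^ m) := pow_dvd_pow 2 hbig.le
  have h2 : ∑ i, x i ^ 2 ^ m ≡ 2 ^ (m + 2) [MOD 2 ^ (m + 2)] := h1.of_dvd hd
  have heven : ∀ y : ℕ, ¬ Odd y → 2 ^ (2 ^ m) ∣ y ^ 2 ^ m := fun y hy =>
    pow_dvd_pow_of_dvd (Nat.not_odd_iff_even.1 hy).two_dvd _
  -- the number of odd terms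
  have hterm : ∀ i, ((x i ^ 2 ^ m : ℕ) : ZMod (2 ^ (m + 2))) =
      if Odd (x i) then 1 else 0 := by
    intro i
    by_cases ho : Odd (x i)
    · rw [if_pos ho]
      obtain ⟨m', rfl⟩ : ∃ m', m = m' + 1 := ⟨m - 1, by omega⟩
      obtain ⟨t, ht⟩ := odd_pow (x i) ho m'
      rw [ht]
      push_cast
      have h0 : ((2 : ZMod (2 ^ (m' + 1 + 2))) ^ (m' + 3)) = 0 := by
        have := ZMod.natCast_self (2 ^ (m' + 1 + 2))
        push_cast at this
        exact this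
      rw [h0]
      ring
    · rw [if_neg ho, ZMod.natCast_eq_zero_iff]
      exact hd.trans (heven _ ho)
  have hcount : ((Finset.univ.filter (fun i => Odd (x i))).card : ZMod (2 ^ (m + 2))) = 0 := by
    have h3 : ((∑ i, x i ^ 2 ^ m : ℕ) : ZMod (2 ^ (m + 2))) = 0 := by
      have h4 := (ZMod.natCast_eq_natCast_iff _ _ _).2 h2
      rw [h4, ZMod.natCast_self]
    rw [Nat.cast_sum, Finset.sum_congr rfl fun i _ => hterm i, ← Finset.sum_filter,
      Finset.sum_const, nsmul_eq_mul, mul_one] at h3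
    exact h3
  rw [ZMod.natCast_eq_zero_iff] at hcount
  have hle : (Finset.univ.filter (fun i => Odd (x i))).card ≤ 4 * 2 ^ m - 1 := by
    refine (Finset.card_filter_le _ _).trans ?_
    rw [Finset.card_univ, Fintype.card_fin]
  have hzero : (Finset.univ.filter (fun i => Odd (x i))).card = 0 := by
    apply Nat.eq_zero_of_dvd_of_lt hcount
    have h5 : 2 ^ (m + 2) = 4 * 2 ^ m := by ring
    have h6 : 0 < 2 ^ m := by positivity
    omega
  rw [Finset.card_eq_zero, Finset.filter_eq_empty_iff] at hzero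
  have h7 : 2 ^ (2 ^ m) ∣ ∑ i, x i ^ 2 ^ m :=
    Finset.dvd_sum fun i hi => heven _ (hzero hi)
  have h8 : 2 ^ (2 ^ m) ∣ 2 ^ (m + 2) :=
    (Nat.modEq_zero_iff_dvd.1 ((h1.symm).trans (Nat.modEq_zero_iff_dvd.2 h7)))
  have h9 := (Nat.pow_dvd_pow_iff_le_right (show 1 < 2 by norm_num)).1 h8
  omega

end Pool.Agent.CrW
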