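import Pool.Agent.CrW.ChainBC
import Pool.Agent.CrW.Infinite
import Pool.Agent.CrW.Local
import Pool.Agent.CrW.Sharp

/-!
# Assembly of the random model theorem
-/

namespace Pool.Agent.CrW

open MeasureTheory ProbabilityTheory Filter

/-- For independent random events R n (n is in the random set) with P(R n) >= c n^(1/k-1) for every
k-th power residue n >= 1 mod Q: almost surely every large N is a sum of s distinct positive
k-th power residues mod Q that are in the random set. -/
def ModelWaring (k Q s : ℕ) : Prop :=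
  ∀ c : ℝ, 0 < c → ∀ (Ω : Type) [MeasurableSpace Ω] (P : Measure Ω) [IsProbabilityMeasure P]
    (R : ℕ → Set Ω), (∀ n, MeasurableSet (R n)) → iIndepSet R P →
    (∀ n : ℕ, 1 ≤ n → PowRes k Q n → c * (n : ℝ) ^ ((1 : ℝ) / k - 1) ≤ P.real (R n)) →
    ∀ᵐ ω ∂P, ∀ᶠ N : ℕ in atTop, ∃ x : Fin s → ℕ, Function.Injective x ∧
      (∀ i, 0 < x i ∧ ω ∈ R (x i) ∧ PowRes k Q (x i)) ∧ N = ∑ i, x i

theorem powRes_congr (k Q a b : ℕ) (h : a ≡ b [MOD Q]) (ha : PowRes k Q a) : PowRes k Q b := by
  obtain ⟨x, hx⟩ := ha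
  exact ⟨x, hx.trans h⟩

theorem modelWaring (k Q s : ℕ) (hk : 2 ≤ k) (hQ : 1 ≤ Q) (hs : k + 1 ≤ s)
    (hloc : LocSum k Q s) : ModelWaring k Q s := by
  classical
  intro c hc Ω _ P _ R hR hi hP
  obtain ⟨s', rfl⟩ := Nat.exists_eq_add_of_le hs
  -- small elements
  have hsmall : ∀ᵐ ω ∂P, ∀ a : ℕ, PowRes k Q a → {n : ℕ | n ≡ a [MOD Q] ∧ ω ∈ R n}.Infinite := by
    rw [ae_all_iff]
    intro a
    by_cases ha : PowRes k Q a
    · filter_upwards [infinite_class P k Q a c hk hQ hc ha R hR hi hP] with ω hω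
      intro _
      exact hω
    · exact Eventually.of_forall fun ω h => absurd h ha
  -- chain events for all tuples of classes and all K
  have hchain : ∀ᵐ ω ∂P, ∀ (cl : Fin (k + 1) → Fin Q) (K : ℕ),
      (∀ j : Fin (k + 1), PowRes k Q (cl j)) →
      ∀ᶠ T : ℕ in atTop, ∀ m : ℕ, T / 2 ≤ m → m ≤ T → ∃ x : Fin (k + 1) → ℕ,
        Function.Injective x ∧ (∀ i, K < x i) ∧ (∀ i : Fin (k + 1), ω ∈ R (cl i + Q * x i)) ∧
        m = ∑ i, x i := by
    rw [ae_all_iff]
    intro cl
    rw [ae_all_iff]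
    intro K
    by_cases hres : ∀ j : Fin (k + 1), PowRes k Q (cl j)
    · let cl' : ℕ → ℕ := fun j => if h : j < k + 1 then (cl ⟨j, h⟩ : ℕ) else 0
      have hcl' : ∀ i : Fin (k + 1), cl' i = cl i := by
        intro i
        simp only [cl', i.isLt, dite_true]
      have h1 : ∀ j ≤ k, cl' j < Q := by
        intro j hj
        have := hcl' ⟨j, by omega⟩
        simp only at this
        rw [this]
        exact (cl _).isLt
      have h2 : ∀ j ≤ k, PowRes k Q (cl' j) := by
        intro j hj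
        have := hcl' ⟨j, by omega⟩
        simp only at this
        rw [this]
        exact hres _
      filter_upwards [chain_ae P k Q c hk hQ hc R hR hi hP cl' h1 h2 K] with ω hω
      intro _
      filter_upwards [hω] with T hT
      intro m hm1 hm2
      obtain ⟨x, hx1, hx2, hx3, hx4⟩ := hT m hm1 hm2
      refine ⟨x, hx1, hx2, fun i => ?_, hx4⟩
      have := hx3 i
      rwa [hcl' i] at this
    · exact Eventually.of_forall fun ω h => absurd h hres
  filter_upwards [hsmall, hchain] with ω hω1 hω2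
  -- enumerate the small elements: g a i, positive, in the class a
  have hpos : ∀ a : ℕ, PowRes k Q a → {n : ℕ | (n ≡ a [MOD Q] ∧ ω ∈ R n) ∧ 0 < n}.Infinite := by
    intro a ha
    have h1 := hω1 a ha
    have h2 : {n : ℕ | (n ≡ a [MOD Q] ∧ ω ∈ R n) ∧ 0 < n} =
        {n : ℕ | n ≡ a [MOD Q] ∧ ω ∈ R n} \ {0} := by
      ext n
      simp only [Set.mem_setOf_eq, Set.mem_diff, Set.mem_singleton_iff]
      constructor
      · rintro ⟨h, h0⟩
        exact ⟨h, by omega⟩
      · rintro ⟨h, h0⟩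
        exact ⟨h, by omega⟩
    rw [h2]
    exact h1.diff (Set.finite_singleton 0)
  let g : ℕ → ℕ → ℕ := fun a i =>
    if h : PowRes k Q a then ((hpos a h).natEmbedding _ i : ℕ) else 0
  have hg : ∀ a i, PowRes k Q a → (g a i ≡ a [MOD Q] ∧ ω ∈ R (g a i)) ∧ 0 < g a i := by
    intro a i ha
    have : g a i = ((hpos a ha).natEmbedding _ i : ℕ) := by simp only [g, ha, dite_true]
    rw [this]
    exact ((hpos a ha).natEmbedding _ i).2
  have hginj : ∀ a, PowRes k Q a → ∀ i j, g a i = g a j → i = j := by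
    intro a ha i j hij
    have h1 : ∀ i, g a i = ((hpos a ha).natEmbedding _ i : ℕ) := by
      intro i
      simp only [g, ha, dite_true]
    rw [h1, h1] at hij
    exact (((hpos a ha).natEmbedding _).injective) (Subtype.ext hij)
  -- a bound for the small elements
  obtain ⟨K, hK⟩ : ∃ K : ℕ, ∀ a < Q, ∀ i < s', g a i ≤ K := by
    refine ⟨∑ a ∈ Finset.range Q, ∑ i ∈ Finset.range s', g a i, fun a ha i hi => ?_⟩
    calc g a i ≤ ∑ i ∈ Finset.range s', g a i :=
          Finset.single_le_sum (f := fun i => g a i) (fun _ _ => Nat.zero_le _)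
            (Finset.mem_range.mpr hi)
      _ ≤ ∑ a ∈ Finset.range Q, ∑ i ∈ Finset.range s', g a i :=
          Finset.single_le_sum (f := fun a => ∑ i ∈ Finset.range s', g a i)
            (fun _ _ => Nat.zero_le _) (Finset.mem_range.mpr ha)
  -- all tuples at once
  have hall : ∀ᶠ T : ℕ in atTop, ∀ cl : Fin (k + 1) → Fin Q,
      (∀ j : Fin (k + 1), PowRes k Q (cl j)) →
      ∀ m : ℕ, T / 2 ≤ m → m ≤ T → ∃ x : Fin (k + 1) → ℕ,
        Function.Injective x ∧ (∀ i, K < x i) ∧ (∀ i : Fin (k + 1), ω ∈ R (cl i + Q * x i)) ∧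
        m = ∑ i, x i := by
    rw [eventually_all]
    intro cl
    by_cases hres : ∀ j : Fin (k + 1), PowRes k Q (cl j)
    · filter_upwards [hω2 cl K hres] with T hT
      intro _
      exact hT
    · exact Eventually.of_forall fun T h => absurd h hres
  obtain ⟨T0, hT0⟩ := eventually_atTop.mp hall
  rw [eventually_atTop]
  refine ⟨Q * (T0 + 1) + 4 * (s' * K + (k + 1) * Q + 2 * Q), fun N hN => ?_⟩
  obtain ⟨x, hx⟩ := hloc N
  -- classes
  let cN : Fin (k + 1 + s') → ℕ := fun i => (x i ^ k) % Q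
  have hcN : ∀ i, cN i < Q := fun i => Nat.mod_lt _ (by omega)
  have hcNres : ∀ i, PowRes k Q (cN i) := fun i => ⟨x i, (Nat.mod_modEq _ _).symm⟩
  let r : Fin s' → ℕ := fun i => g (cN (Fin.natAdd (k + 1) i)) i
  have hrle : ∑ i, r i ≤ s' * K := by
    calc ∑ i, r i ≤ ∑ _i : Fin s', K :=
          Finset.sum_le_sum fun i _ => hK _ (hcN _) _ i.isLt
      _ = s' * K := by simp
  have hcle : ∑ i : Fin (k + 1), cN (Fin.castAdd s' i) ≤ (k + 1) * Q := by
    calc ∑ i : Fin (k + 1), cN (Fin.castAdd s' i) ≤ ∑ _i : Fin (k + 1), Q :=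
          Finset.sum_le_sum fun i _ => (hcN _).le
      _ = (k + 1) * Q := by simp
  have hNbig : ∑ i, r i + ∑ i : Fin (k + 1), cN (Fin.castAdd s' i) ≤ N := by
    have : 0 ≤ Q * (T0 + 1) := Nat.zero_le _
    omega
  have hmod : (∑ i, r i + ∑ i : Fin (k + 1), cN (Fin.castAdd s' i)) ≡ N [MOD Q] := by
    refine Nat.ModEq.trans ?_ hx
    have h0 : ∑ i, x i ^ k = ∑ i : Fin (k + 1), x (Fin.castAdd s' i) ^ k +
        ∑ i : Fin s', x (Fin.natAdd (k + 1) i) ^ k := Fin.sum_univ_add _
    rw [h0, add_comm]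
    apply Nat.ModEq.add
    · apply Nat.ModEq.sum
      intro i _
      exact Nat.mod_modEq _ _
    · apply Nat.ModEq.sum
      intro i _
      exact ((hg _ _ (hcNres _)).1.1).trans (Nat.mod_modEq _ _)
  obtain ⟨m, hm⟩ : ∃ m, N = ∑ i, r i + ∑ i : Fin (k + 1), cN (Fin.castAdd s' i) + Q * m := by
    have h1 := (Nat.modEq_iff_dvd' hNbig).mp hmod
    obtain ⟨m, hm⟩ := h1
    exact ⟨m, by omega⟩
  -- T = N / Q
  have hTN : N / Q * Q ≤ N := Nat.div_mul_le_self _ _
  have hTN2 : N < (N / Q + 1) * Q := by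
    have := Nat.lt_div_mul_add (a := N) (b := Q) (by omega)
    rw [Nat.add_mul, one_mul]
    exact this
  have hmT : m ≤ N / Q := by
    rw [Nat.le_div_iff_mul_le (by omega)]
    rw [mul_comm]
    omega
  have hT0T : T0 ≤ N / Q := by
    rw [Nat.le_div_iff_mul_le (by omega)]
    have : Q * (T0 + 1) = T0 * Q + Q := by ring
    omega
  have hmT2 : N / Q / 2 ≤ m := by
    by_contra hlt
    have hlt : m < N / Q / 2 := not_le.mp hlt
    have h1 : 2 * (m + 1) ≤ N / Q := by omega
    have h2 : 2 * (m + 1) * Q ≤ N / Q * Q := Nat.mul_le_mul_right Q h1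
    have h3 : 2 * (m + 1) * Q = 2 * (Q * m) + 2 * Q := by ring
    omega
  obtain ⟨y, hyinj, hyK, hyR, hysum⟩ := hT0 (N / Q) hT0T
    (fun i => ⟨cN (Fin.castAdd s' i), hcN _⟩) (fun i => hcNres _) m hmT2 hmT
  simp only at hyR
  -- the final representation
  have hclass : ∀ i : Fin (k + 1), cN (Fin.castAdd s' i) + Q * y i ≡ cN (Fin.castAdd s' i) [MOD Q] := by
    intro i
    simp [Nat.ModEq, Nat.add_mul_mod_self_left]
  refine ⟨Fin.addCases (fun i => cN (Fin.castAdd s' i) + Q * y i) r, ?_, ?_, ?_⟩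
  · -- injective
    have hbig : ∀ i : Fin (k + 1), ∀ j : Fin s', r j < cN (Fin.castAdd s' i) + Q * y i := by
      intro i j
      have h1 : r j ≤ K := hK _ (hcN _) _ j.isLt
      have h2 := hyK i
      have h3 : 1 * y i ≤ Q * y i := Nat.mul_le_mul_right _ hQ
      omega
    intro i j hij
    revert hij
    refine Fin.addCases (fun i => ?_) (fun i => ?_) i <;>
      refine Fin.addCases (fun j => ?_) (fun j => ?_) j
    · simp only [Fin.addCases_left]
      intro hij
      congr 1
      apply hyinj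
      by_contra hne
      rcases lt_or_gt_of_ne hne with h | h
      · have h1 : Q * (y i + 1) ≤ Q * y j := Nat.mul_le_mul_left Q h
        have h2 : Q * (y i + 1) = Q * y i + Q := by ring
        have h3 := hcN (Fin.castAdd s' i)
        omega
      · have h1 : Q * (y j + 1) ≤ Q * y i := Nat.mul_le_mul_left Q h
        have h2 : Q * (y j + 1) = Q * y j + Q := by ring
        have h3 := hcN (Fin.castAdd s' j)
        omega
    · simp only [Fin.addCases_left, Fin.addCases_right]
      intro hij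
      have := hbig i j
      omega
    · simp only [Fin.addCases_left, Fin.addCases_right]
      intro hij
      have := hbig j i
      omega
    · simp only [Fin.addCases_right]
      intro hij
      congr 1
      have h1 := (hg _ i (hcNres (Fin.natAdd (k + 1) i))).1.1
      have h2 := (hg _ j (hcNres (Fin.natAdd (k + 1) j))).1.1
      have h3 : cN (Fin.natAdd (k + 1) i) = cN (Fin.natAdd (k + 1) j) := by
        have h4 : cN (Fin.natAdd (k + 1) i) ≡ cN (Fin.natAdd (k + 1) j) [MOD Q] := by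
          refine h1.symm.trans ?_
          have h5 : g (cN (Fin.natAdd (k + 1) i)) i = g (cN (Fin.natAdd (k + 1) j)) j := hij
          rw [h5]
          exact h2
        have h5 := Nat.ModEq.eq_of_lt_of_lt h4 (hcN _) (hcN _)
        exact h5
      have h6 : g (cN (Fin.natAdd (k + 1) i)) i = g (cN (Fin.natAdd (k + 1) i)) j := by
        have h5 : g (cN (Fin.natAdd (k + 1) i)) i = g (cN (Fin.natAdd (k + 1) j)) j := hij
        rw [h5, h3]
      exact Fin.ext (hginj _ (hcNres _) _ _ h6)
  · intro i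
    refine Fin.addCases (fun i => ?_) (fun i => ?_) i
    · simp only [Fin.addCases_left]
      refine ⟨?_, hyR i, powRes_congr k Q _ _ (hclass i).symm (hcNres _)⟩
      have h2 := hyK i
      have h3 : 1 * y i ≤ Q * y i := Nat.mul_le_mul_right _ hQ
      omega
    · simp only [Fin.addCases_right]
      have h1 := hg _ i (hcNres (Fin.natAdd (k + 1) i))
      exact ⟨h1.2, h1.1.2, powRes_congr k Q _ _ h1.1.1.symm (hcNres _)⟩
  · rw [Fin.sum_univ_add]
    simp only [Fin.addCases_left, Fin.addCases_right]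
    rw [Finset.sum_add_distrib, ← Finset.mul_sum, ← hysum, hm]
    ring

end Pool.Agent.CrW
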