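import Pool.Agent.CrW.Main

/-!
# MP_ee77ae_nt: a Cramér type random model of the k-th powers with local conditions

(1) If k ≥ 2, Q ≥ 1, s ≥ k + 1 and every class mod Q is a sum of s k-th powers, then for a random
set of k-th power residues mod Q having at least a constant times the density of the k-th powers
(P(n in R) ≥ c n^(1/k-1), independent), almost surely every large N is a sum of s distinct elements.
(2) Every residue class modulo every Q is a sum of 4k k-th powers; so s = 4k works for every k and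
Q.  (3) For k = 2^m ≥ 8 and 2^k | Q some class is not a sum of 4k - 1 k-th powers.
-/

namespace Pool.Agent.CrW.ResModel

open Pool.Agent.CrW

theorem result :
    (∀ k Q s : ℕ, 2 ≤ k → 1 ≤ Q → k + 1 ≤ s → LocSum k Q s → ModelWaring k Q s) ∧
    (∀ k Q : ℕ, 2 ≤ k → 1 ≤ Q → ModelWaring k Q (4 * k)) ∧
    (∀ m Q : ℕ, 3 ≤ m → 2 ^ (2 ^ m) ∣ Q → ¬ LocSum (2 ^ m) Q (4 * 2 ^ m - 1)) :=
  ⟨fun k Q s hk hQ hs h => modelWaring k Q s hk hQ hs h,
    fun k Q hk hQ => modelWaring k Q (4 * k) hk hQ (by omega) (locSum k Q (by omega) hQ),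
    fun m Q hm hQ => not_locSum m Q hm hQ⟩

end Pool.Agent.CrW.ResModel
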